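import Pool.Agent.D0H26.Fac.Mat
import Pool.Agent.H147R2.RI.JF

/-!
The deck transformations of a periodic covering of a factor of a hyperbolic map are affine.
-/

set_option autoImplicit false
open Filter Topology Set Metric

namespace Pool.Agent.D0H26.Fac

variable {k : ℕ}

/-- a continuous map with `k` independent periods is bounded -/
theorem bdd_of_per {W : Type*} [NormedAddCommGroup W] (θ : (Fin k → ℝ) → W) (hc : Continuous θ)
    (N : ℝ) (hN : 0 < N) (h : ∀ x (j : Fin k), θ (x + Pi.single j N) = θ x) :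
    ∃ K, ∀ x, ‖θ x‖ ≤ K := by
  obtain ⟨K, hK⟩ := (isCompact_Icc (a := (0 : Fin k → ℝ)) (b := fun _ => N)).exists_bound_of_continuousOn
    hc.continuousOn
  refine ⟨K, fun x => ?_⟩
  let G : AddSubgroup (Fin k → ℝ) :=
    { carrier := {v | ∀ x, θ (x + v) = θ x}
      add_mem' := by
        intro a b ha hb x
        rw [← add_assoc, hb, ha]
      zero_mem' := fun x => by rw [add_zero]
      neg_mem' := by
        intro a ha x
        have := ha (x + -a)
        rw [neg_add_cancel_right] at this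
        exact this.symm }
  have h1 : ∀ z : Fin k → ℤ, (fun j => (z j : ℝ) * N) ∈ G := by
    intro z
    have h2 : (fun j => (z j : ℝ) * N) = ∑ j, z j • (Pi.single j N : Fin k → ℝ) := by
      funext i
      rw [Finset.sum_apply, Finset.sum_eq_single i]
      · simp
      · intro j _ hj
        rw [Pi.smul_apply, Pi.single_eq_of_ne hj.symm, smul_zero]
      · intro hi
        exact absurd (Finset.mem_univ i) hi
    rw [h2]
    exact G.sum_mem fun j _ => G.zsmul_mem (fun x => h x j) _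
  have h3 := h1 (fun j => -⌊x j / N⌋) x
  rw [← h3]
  apply hK
  constructor
  · intro j
    show 0 ≤ x j + ((-⌊x j / N⌋ : ℤ) : ℝ) * N
    have h4 := Int.floor_le (x j / N)
    have h5 : (⌊x j / N⌋ : ℝ) * N ≤ x j := by
      calc (⌊x j / N⌋ : ℝ) * N ≤ x j / N * N := mul_le_mul_of_nonneg_right h4 hN.le
        _ = x j := div_mul_cancel₀ _ hN.ne'
    push_cast
    linarith
  · intro j
    show x j + ((-⌊x j / N⌋ : ℤ) : ℝ) * N ≤ N
    have h4 := (Int.lt_floor_add_one (x j / N)).le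
    have h5 : x j ≤ ((⌊x j / N⌋ : ℝ) + 1) * N := by
      calc x j = x j / N * N := (div_mul_cancel₀ _ hN.ne').symm
        _ ≤ ((⌊x j / N⌋ : ℝ) + 1) * N := mul_le_mul_of_nonneg_right h4 hN.le
    push_cast
    linarith

/-- The data of the reduced factor, with the covering property. -/
structure CD (k : ℕ) (X : Type*) [TopologicalSpace X] where
  T : (Fin k → ℝ) ≃ₗ[ℝ] (Fin k → ℝ)
  H : HSp T
  Ti : ∀ x ∈ intG k, T x ∈ intG k
  Tsi : ∀ x ∈ intG k, T.symm x ∈ intG k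
  g : X → X
  Q : (Fin k → ℝ) → X
  cov : IsCoveringMap Q
  per : ∀ (x : Fin k → ℝ) (z : Fin k → ℤ), Q (x + fun i => (z i : ℝ)) = Q x
  equi : ∀ x, Q (T x) = g (Q x)
  exact : ∀ v, (∀ x, Q (x + v) = Q x) → v ∈ intG k

set_option linter.unusedSectionVars false
variable {X : Type*} [TopologicalSpace X] [T2Space X]

theorem CD.per' (D : CD k X) (x : Fin k → ℝ) {w : Fin k → ℝ} (hw : w ∈ intG k) :
    D.Q (x + w) = D.Q x := by
  obtain ⟨z, rfl⟩ := hw
  exact D.per x z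

/-- deck transformations -/
def CD.Dk (D : CD k X) (τ : (Fin k → ℝ) → (Fin k → ℝ)) : Prop :=
  Continuous τ ∧ ∀ x, D.Q (τ x) = D.Q x

theorem CD.uniq (D : CD k X) {τ σ : (Fin k → ℝ) → (Fin k → ℝ)} (hτ : D.Dk τ) (hσ : D.Dk σ)
    (x : Fin k → ℝ) (h : τ x = σ x) : τ = σ :=
  D.cov.eq_of_comp_eq hτ.1 hσ.1 (funext fun y => (hτ.2 y).trans (hσ.2 y).symm) x h

theorem CD.exists_dk (D : CD k X) (x y : Fin k → ℝ) (h : D.Q x = D.Q y) :
    ∃ τ, D.Dk τ ∧ τ x = y := by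
  obtain ⟨F, ⟨h1, h2⟩, -⟩ := D.cov.existsUnique_continuousMap_lifts
    (⟨D.Q, D.cov.continuous⟩ : C(Fin k → ℝ, X)) x y h.symm
  exact ⟨F, ⟨F.continuous, fun z => congrFun h2 z⟩, h1⟩

/-- pigeonhole on a fibre -/
theorem CD.pigeon (D : CD k X) (a : X) (u : ℕ → (Fin k → ℝ)) (hu : ∀ n, D.Q (u n) = a) :
    ∃ n1 n2 : ℕ, n1 < n2 ∧ u n2 - u n1 ∈ intG k := by
  classical
  obtain ⟨S, hS⟩ := Pool.Agent.H147R2.RI.fib_fin D.Q D.cov D.per a
  choose s hs z hz using fun n => hS (u n) (hu n)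
  obtain ⟨n1, n2, hne, heq⟩ : ∃ n1 n2 : ℕ, n1 ≠ n2 ∧ s n1 = s n2 := by
    have : ∃ n1 n2 : ℕ, n1 ≠ n2 ∧ (⟨s n1, hs n1⟩ : S) = ⟨s n2, hs n2⟩ :=
      Finite.exists_ne_map_eq_of_infinite fun n => (⟨s n, hs n⟩ : S)
    obtain ⟨n1, n2, h1, h2⟩ := this
    exact ⟨n1, n2, h1, congrArg Subtype.val h2⟩
  have key : ∀ a b : ℕ, s a = s b → u b - u a ∈ intG k := by
    intro a b hab
    have h1 : u b - u a = intV (z b) - intV (z a) := by
      rw [hz a, hz b, hab]
      show s b + intV (z b) - (s b + intV (z a)) = _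
      abel
    rw [h1]
    exact (intG k).sub_mem ⟨_, rfl⟩ ⟨_, rfl⟩
  rcases lt_or_gt_of_ne hne with h | h
  · exact ⟨n1, n2, h, key n1 n2 heq⟩
  · exact ⟨n2, n1, h, key n2 n1 heq.symm⟩

theorem CD.dk_tr (D : CD k X) {τ : (Fin k → ℝ) → (Fin k → ℝ)} (hτ : D.Dk τ) {w : Fin k → ℝ}
    (hw : w ∈ intG k) : D.Dk fun x => τ x + w :=
  ⟨hτ.1.add continuous_const, fun x => by rw [D.per' _ hw, hτ.2]⟩

theorem CD.dk_tr' (D : CD k X) {τ : (Fin k → ℝ) → (Fin k → ℝ)} (hτ : D.Dk τ) {w : Fin k → ℝ}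
    (hw : w ∈ intG k) : D.Dk fun x => τ (x + w) :=
  ⟨hτ.1.comp (continuous_id.add continuous_const), fun x => by rw [hτ.2, D.per' _ hw]⟩

/-- a deck transformation is quasi-periodic -/
theorem CD.quasi (D : CD k X) {τ : (Fin k → ℝ) → (Fin k → ℝ)} (hτ : D.Dk τ) {z : Fin k → ℝ}
    (hz : z ∈ intG k) : ∃ n : ℕ, 1 ≤ n ∧ ∃ w ∈ intG k, ∀ x, τ (x + n • z) = τ x + w := by
  obtain ⟨n1, n2, h12, hw⟩ := D.pigeon (D.Q 0) (fun n => τ (n • z)) (fun n => by
    rw [hτ.2, ← D.per' 0 ((intG k).nsmul_mem hz n), zero_add])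
  have h1 : (fun x => τ (x + n2 • z)) = fun x => τ (x + n1 • z) + (τ (n2 • z) - τ (n1 • z)) := by
    refine D.uniq (D.dk_tr' hτ ((intG k).nsmul_mem hz n2))
      (D.dk_tr (D.dk_tr' hτ ((intG k).nsmul_mem hz n1)) hw) 0 ?_
    simp only [zero_add]
    abel
  refine ⟨n2 - n1, by omega, _, hw, fun x => ?_⟩
  have h2 := congrFun h1 (x - n1 • z)
  simp only [sub_add_cancel] at h2
  rw [← h2]
  congr 1
  have h3 : n2 • z = (n2 - n1) • z + n1 • z := by
    rw [← add_nsmul, Nat.sub_add_cancel h12.le]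
  rw [h3]
  abel

theorem CD.T_iter_mem (D : CD k X) (n : ℕ) {w : Fin k → ℝ} (hw : w ∈ intG k) :
    D.T^[n] w ∈ intG k ∧ D.T.symm^[n] w ∈ intG k := by
  induction n with
  | zero => exact ⟨hw, hw⟩
  | succ n ih =>
    rw [Function.iterate_succ_apply', Function.iterate_succ_apply']
    exact ⟨D.Ti _ ih.1, D.Tsi _ ih.2⟩

theorem CD.Q_iter (D : CD k X) (n : ℕ) (x : Fin k → ℝ) : D.Q (D.T^[n] x) = D.g^[n] (D.Q x) :=
  (show Function.Semiconj D.Q D.T D.g from D.equi).iterate_right n x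

theorem sT {V : Type*} [NormedAddCommGroup V] [NormedSpace ℝ V] (T : V ≃ₗ[ℝ] V) (n : ℕ) (x : V) :
    T^[n] (T.symm^[n] x) = x :=
  (Function.LeftInverse.iterate T.apply_symm_apply n) x

theorem sT' {V : Type*} [NormedAddCommGroup V] [NormedSpace ℝ V] (T : V ≃ₗ[ℝ] V) (n : ℕ) (x : V) :
    T.symm^[n] (T^[n] x) = x :=
  (Function.LeftInverse.iterate T.symm_apply_apply n) x

theorem CD.dk_conj (D : CD k X) {τ : (Fin k → ℝ) → (Fin k → ℝ)} (hτ : D.Dk τ) (n : ℕ) :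
    D.Dk fun x => D.T^[n] (τ (D.T.symm^[n] x)) := by
  have hTc : Continuous D.T := (LinearMap.toContinuousLinearMap D.T.toLinearMap).continuous
  have hSc : Continuous D.T.symm :=
    (LinearMap.toContinuousLinearMap D.T.symm.toLinearMap).continuous
  refine ⟨(hTc.iterate n).comp (hτ.1.comp (hSc.iterate n)), fun x => ?_⟩
  rw [D.Q_iter, hτ.2, ← D.Q_iter, sT]

/-- a power of the linear map commutes with a deck transformation up to a translation -/
theorem CD.almost_comm (D : CD k X) {τ : (Fin k → ℝ) → (Fin k → ℝ)} (hτ : D.Dk τ) :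
    ∃ J : ℕ, 1 ≤ J ∧ ∃ w : Fin k → ℝ, ∀ x, D.T^[J] (τ (D.T.symm^[J] x)) = τ x + w := by
  obtain ⟨n1, n2, h12, hw⟩ := D.pigeon (D.Q 0) (fun n => D.T^[n] (τ (D.T.symm^[n] 0)))
    (fun n => (D.dk_conj hτ n).2 0)
  have h1 : (fun x => D.T^[n2] (τ (D.T.symm^[n2] x))) = fun x => D.T^[n1] (τ (D.T.symm^[n1] x)) +
      (D.T^[n2] (τ (D.T.symm^[n2] 0)) - D.T^[n1] (τ (D.T.symm^[n1] 0))) := by
    refine D.uniq (D.dk_conj hτ n2) (D.dk_tr (D.dk_conj hτ n1) hw) 0 ?_
    abel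
  obtain ⟨W, hW⟩ : ∃ W, W = D.T^[n2] (τ (D.T.symm^[n2] 0)) - D.T^[n1] (τ (D.T.symm^[n1] 0)) :=
    ⟨_, rfl⟩
  rw [← hW] at h1
  refine ⟨n2 - n1, by omega, D.T.symm^[n1] W, fun x => ?_⟩
  have h2 := congrFun h1 (D.T^[n1] x)
  have hlin : ∀ (n : ℕ) (a b : Fin k → ℝ), D.T^[n] (a + b) = D.T^[n] a + D.T^[n] b := by
    intro n a b
    exact iterate_map_add D.T n a b
  have hinj : Function.Injective (D.T^[n1]) := D.T.injective.iterate n1
  apply hinj
  rw [hlin, sT]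
  rw [sT'] at h2
  rw [← h2, ← Function.iterate_add_apply]
  have h3 : n1 + (n2 - n1) = n2 := by omega
  rw [h3]
  congr 2
  have h4 : n2 = (n2 - n1) + n1 := by omega
  conv_rhs => rw [h4]
  rw [Function.iterate_add_apply, sT']

/-- **Deck transformations are affine.** -/
theorem CD.affine (D : CD k X) {τ : (Fin k → ℝ) → (Fin k → ℝ)} (hτ : D.Dk τ) :
    ∃ C : (Fin k → ℝ) →ₗ[ℝ] (Fin k → ℝ), ∀ x y, τ x - τ y = C (x - y) := by
  classical
  -- the linear part
  have hq : ∀ j : Fin k, ∃ n : ℕ, 1 ≤ n ∧ ∃ w : Fin k → ℝ,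
      ∀ x, τ (x + Pi.single j (n : ℝ)) = τ x + w := by
    intro j
    have hmem : (Pi.single j (1 : ℝ) : Fin k → ℝ) ∈ intG k := by
      refine ⟨Pi.single j 1, ?_⟩
      funext i
      rcases eq_or_ne i j with rfl | hij
      · simp [intV]
      · simp [intV, Pi.single_eq_of_ne hij]
    obtain ⟨n, hn, w, -, hw⟩ := D.quasi hτ hmem
    refine ⟨n, hn, w, fun x => ?_⟩
    rw [← hw]
    congr 2
    rw [← Pi.single_smul]
    simp
  choose n hn w hw using hq
  obtain ⟨N, hNdef⟩ : ∃ N : ℕ, N = ∏ j, n j := ⟨_, rfl⟩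
  have hN1 : 1 ≤ N := by
    rw [hNdef]
    exact Nat.one_le_iff_ne_zero.2 (Finset.prod_ne_zero_iff.2 fun j _ => by
      have := hn j; omega)
  have hNpos : (0 : ℝ) < N := by exact_mod_cast hN1
  have hmul : ∀ j, ∃ w' : Fin k → ℝ, ∀ x, τ (x + Pi.single j (N : ℝ)) = τ x + w' := by
    intro j
    obtain ⟨q, hq⟩ : n j ∣ N := by
      rw [hNdef]; exact Finset.dvd_prod_of_mem n (Finset.mem_univ j)
    have h1 : ∀ (q : ℕ) x, τ (x + Pi.single j ((q * n j : ℕ) : ℝ)) = τ x + q • w j := by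
      intro q
      induction q with
      | zero => intro x; simp
      | succ q ih =>
        intro x
        have e1 : x + Pi.single j (((q + 1) * n j : ℕ) : ℝ) =
            (x + Pi.single j ((q * n j : ℕ) : ℝ)) + Pi.single j (n j : ℝ) := by
          rw [add_assoc, ← Pi.single_add]
          congr 2
          push_cast
          ring
        rw [e1, hw, ih, succ_nsmul, add_assoc]
    refine ⟨q • w j, fun x => ?_⟩
    rw [← h1 q x, hq, mul_comm]
  choose w' hw' using hmul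
  obtain ⟨C, hC⟩ : ∃ C : (Fin k → ℝ) →ₗ[ℝ] (Fin k → ℝ),
      ∀ j, C (Pi.single j (N : ℝ)) = w' j := by
    refine ⟨(Pi.basisFun ℝ (Fin k)).constr ℝ fun j => (N : ℝ)⁻¹ • w' j, fun j => ?_⟩
    have e1 : (Pi.single j (N : ℝ) : Fin k → ℝ) = (N : ℝ) • Pi.single j (1 : ℝ) := by
      rw [← Pi.single_smul]
      simp
    rw [e1, map_smul, ← Pi.basisFun_apply, Module.Basis.constr_basis, smul_smul,
      mul_inv_cancel₀ hNpos.ne', one_smul]
  have hCc : Continuous C := (LinearMap.toContinuousLinearMap C).continuous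
  obtain ⟨K, hK⟩ := bdd_of_per (fun x => τ x - C x) (hτ.1.sub hCc) N hNpos (fun x j => by
    rw [hw', map_add, hC]
    abel)
  obtain ⟨J, hJ, W, hW⟩ := D.almost_comm hτ
  obtain ⟨ψ, hψ⟩ : ∃ ψ : (Fin k → ℝ) → (Fin k → ℝ) → (Fin k → ℝ),
      ∀ x y, ψ x y = τ x - τ y - C (x - y) := ⟨_, fun _ _ => rfl⟩
  have hψb : ∀ x y, ‖ψ x y‖ ≤ K + K := by
    intro x y
    have e1 : ψ x y = (τ x - C x) - (τ y - C y) := by
      rw [hψ, map_sub]
      abel
    rw [e1]
    exact (norm_sub_le _ _).trans (add_le_add (hK x) (hK y))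
  have hlin : ∀ (n : ℕ) (a b : Fin k → ℝ), D.T^[n] (a - b) = D.T^[n] a - D.T^[n] b :=
    fun n a b => iterate_map_sub D.T n a b
  have hlin' : ∀ (n : ℕ) (a b : Fin k → ℝ),
      D.T.symm^[n] (a - b) = D.T.symm^[n] a - D.T.symm^[n] b :=
    fun n a b => iterate_map_sub D.T.symm n a b
  have hlina : ∀ (n : ℕ) (a b : Fin k → ℝ), D.T^[n] (a + b) = D.T^[n] a + D.T^[n] b :=
    fun n a b => iterate_map_add D.T n a b
  have hτd : ∀ x y, τ x - τ y = D.T^[J] (τ (D.T.symm^[J] x) - τ (D.T.symm^[J] y)) := by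
    intro x y
    rw [hlin, hW, hW]
    abel
  -- the conjugate of the linear part
  obtain ⟨TJ, hTJ⟩ : ∃ TJ : (Fin k → ℝ) →ₗ[ℝ] (Fin k → ℝ), ∀ x, TJ x = D.T^[J] x :=
    ⟨D.T.toLinearMap ^ J, fun x => by rw [Module.End.pow_apply]; rfl⟩
  obtain ⟨SJ, hSJ⟩ : ∃ SJ : (Fin k → ℝ) →ₗ[ℝ] (Fin k → ℝ), ∀ x, SJ x = D.T.symm^[J] x :=
    ⟨D.T.symm.toLinearMap ^ J, fun x => by rw [Module.End.pow_apply]; rfl⟩
  obtain ⟨KT, hKT0, hKT⟩ := lin_bd TJ
  have hdiff : ∀ x y, (C - TJ ∘ₗ C ∘ₗ SJ) (x - y) =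
      TJ (ψ (D.T.symm^[J] x) (D.T.symm^[J] y)) - ψ x y := by
    intro x y
    have e1 := hτd x y
    rw [hψ, hψ, LinearMap.sub_apply, LinearMap.comp_apply, LinearMap.comp_apply, e1, hSJ, ← hlin',
      ← hTJ, map_sub TJ]
    abel
  have hC0 : ∀ v, (C - TJ ∘ₗ C ∘ₗ SJ) v = 0 := by
    intro v
    obtain ⟨E, hE⟩ : ∃ E, E = C - TJ ∘ₗ C ∘ₗ SJ := ⟨_, rfl⟩
    rw [← hE] at hdiff ⊢
    have hb : ∀ v, ‖E v‖ ≤ KT * (K + K) + (K + K) := by
      intro v
      have := hdiff v 0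
      rw [sub_zero] at this
      rw [this]
      refine (norm_sub_le _ _).trans (add_le_add ((hKT _).trans ?_) (hψb _ _))
      exact mul_le_mul_of_nonneg_left (hψb _ _) hKT0
    by_contra hne
    have hpos : 0 < ‖E v‖ := norm_pos_iff.2 hne
    obtain ⟨m, hm⟩ := exists_nat_gt ((KT * (K + K) + (K + K)) / ‖E v‖)
    have h1 := hb ((m : ℝ) • v)
    rw [map_smul, norm_smul, Real.norm_natCast] at h1
    rw [div_lt_iff₀ hpos] at hm
    linarith
  have hψT : ∀ x y, ψ x y = D.T^[J] (ψ (D.T.symm^[J] x) (D.T.symm^[J] y)) := by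
    intro x y
    have := hdiff x y
    rw [hC0, hTJ] at this
    exact (sub_eq_zero.1 this.symm).symm
  have hψT' : ∀ x y, ψ (D.T^[J] x) (D.T^[J] y) = D.T^[J] (ψ x y) := by
    intro x y
    rw [hψT, sT', sT']
  have hψS' : ∀ x y, ψ (D.T.symm^[J] x) (D.T.symm^[J] y) = D.T.symm^[J] (ψ x y) := by
    intro x y
    rw [hψT x y, sT']
  have hit1 : ∀ (m : ℕ) x y, ψ (D.T^[J * m] x) (D.T^[J * m] y) = D.T^[J * m] (ψ x y) := by
    intro m
    induction m with
    | zero => intro x y; rfl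
    | succ m ih =>
      intro x y
      rw [Nat.mul_succ, add_comm (J * m) J, Function.iterate_add_apply, Function.iterate_add_apply,
        Function.iterate_add_apply, hψT', ih]
  have hit2 : ∀ (m : ℕ) x y,
      ψ (D.T.symm^[J * m] x) (D.T.symm^[J * m] y) = D.T.symm^[J * m] (ψ x y) := by
    intro m
    induction m with
    | zero => intro x y; rfl
    | succ m ih =>
      intro x y
      rw [Nat.mul_succ, add_comm (J * m) J, Function.iterate_add_apply, Function.iterate_add_apply,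
        Function.iterate_add_apply, hψS', ih]
  refine ⟨C, fun x y => ?_⟩
  have h0 : ψ x y = 0 := D.H.eq_zero_sub _ (K + K) J hJ
    (fun m => by rw [← hit1]; exact hψb _ _) (fun m => by rw [← hit2]; exact hψb _ _)
  rw [hψ, sub_eq_zero] at h0
  exact h0

/-- **The deck transformations are affine with an integral linear part.** -/
theorem CD.deck (D : CD k X) (x y : Fin k → ℝ) (h : D.Q x = D.Q y) :
    ∃ (B : Matrix (Fin k) (Fin k) ℤ) (c : Fin k → ℝ), IsUnit B.det ∧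
      y = (B.map (Int.cast : ℤ → ℝ)).mulVec x + c ∧
      ∀ w, D.Q ((B.map (Int.cast : ℤ → ℝ)).mulVec w + c) = D.Q w := by
  obtain ⟨τ, hτ, hxy⟩ := D.exists_dk x y h
  obtain ⟨σ, hσ, hyx⟩ := D.exists_dk y x h.symm
  obtain ⟨C, hC⟩ := D.affine hτ
  obtain ⟨C', hC'⟩ := D.affine hσ
  have hid : D.Dk id := ⟨continuous_id, fun _ => rfl⟩
  have hcomp : ∀ {a b : (Fin k → ℝ) → (Fin k → ℝ)}, D.Dk a → D.Dk b → D.Dk (a ∘ b) :=
    fun ha hb => ⟨ha.1.comp hb.1, fun z => (ha.2 _).trans (hb.2 z)⟩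
  have h1 : σ ∘ τ = id := D.uniq (hcomp hσ hτ) hid x (by
    show σ (τ x) = x
    rw [hxy, hyx])
  have h2 : τ ∘ σ = id := D.uniq (hcomp hτ hσ) hid y (by
    show τ (σ y) = y
    rw [hyx, hxy])
  have hCi : ∀ v ∈ intG k, C v ∈ intG k := by
    intro v hv
    apply D.exact
    intro z
    have e1 : z = τ (σ z) := (congrFun h2 z).symm
    have e2 : τ (σ z) + C v = τ (σ z + v) := by
      have := hC (σ z + v) (σ z)
      rw [add_sub_cancel_left] at this
      rw [← this]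
      abel
    rw [e1, e2, hτ.2, D.per' _ hv, hτ.2]
  have hCi' : ∀ v ∈ intG k, C' v ∈ intG k := by
    intro v hv
    apply D.exact
    intro z
    have e1 : z = σ (τ z) := (congrFun h1 z).symm
    have e2 : σ (τ z) + C' v = σ (τ z + v) := by
      have := hC' (τ z + v) (τ z)
      rw [add_sub_cancel_left] at this
      rw [← this]
      abel
    rw [e1, e2, hσ.2, D.per' _ hv, hσ.2]
  have hCC : ∀ v, C (C' v) = v := by
    intro v
    have e1 := hC' v 0
    have e2 := hC (σ v) (σ 0)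
    rw [sub_zero] at e1
    rw [← e1, ← e2]
    show (τ ∘ σ) v - (τ ∘ σ) 0 = v
    rw [h2]
    simp
  obtain ⟨B, hB⟩ := exists_int_matrix C hCi
  obtain ⟨B', hB'⟩ := exists_int_matrix C' hCi'
  have hBB : B * B' = 1 := by
    have e1 : (B * B').map (Int.cast : ℤ → ℝ) = 1 := by
      have e2 : (B * B').map (Int.castRingHom ℝ) =
          B.map (Int.castRingHom ℝ) * B'.map (Int.castRingHom ℝ) := Matrix.map_mul
      refine e2.trans ?_
      refine Matrix.ext_of_mulVec_single fun j => ?_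
      rw [← Matrix.mulVec_mulVec, Matrix.one_mulVec]
      have e3 := hB' (Pi.single j 1)
      have e4 := hB (C' (Pi.single j 1))
      rw [e3, ← hB', hCC, hB'] at e4
      exact e4.symm
    have e5 : (B * B').map (Int.cast : ℤ → ℝ) = (1 : Matrix (Fin k) (Fin k) ℤ).map
        (Int.cast : ℤ → ℝ) := by
      rw [e1]
      exact (Matrix.map_one _ Int.cast_zero Int.cast_one).symm
    exact Matrix.map_injective Int.cast_injective e5
  have hτC : ∀ z, (B.map (Int.cast : ℤ → ℝ)).mulVec z + τ 0 = τ z := by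
    intro z
    have := hC z 0
    rw [sub_zero] at this
    rw [← hB, ← this]
    abel
  refine ⟨B, τ 0, Matrix.isUnit_det_of_right_inverse hBB, ?_, fun w => ?_⟩
  · rw [hτC, hxy]
  · rw [hτC, hτ.2]

end Pool.Agent.D0H26.Fac
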