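import Mathlib

/-!
# Expansive factors of hyperbolic linear maps modulo a lattice: identifications are translations
-/

set_option autoImplicit false

open Filter Topology Set Metric

namespace Pool.Agent.D0H26.Fac

/-- A hyperbolic splitting of an automorphism of a normed space. -/
structure HSp {V : Type*} [NormedAddCommGroup V] [NormedSpace ℝ V] (T : V ≃ₗ[ℝ] V) where
  s : V →ₗ[ℝ] V
  u : V →ₗ[ℝ] V
  add : ∀ v, s v + u v = v
  cs : ∀ v, s (T v) = T (s v)
  cu : ∀ v, u (T v) = T (u v)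
  C : ℝ
  l : ℝ
  hC : 0 ≤ C
  hl0 : 0 ≤ l
  hl1 : l < 1
  bs : ∀ (n : ℕ) (v : V), ‖T^[n] (s v)‖ ≤ C * l ^ n * ‖v‖
  bu : ∀ (n : ℕ) (v : V), ‖T.symm^[n] (u v)‖ ≤ C * l ^ n * ‖v‖

section

variable {V : Type*} [NormedAddCommGroup V] [NormedSpace ℝ V]

/-- the splitting of the inverse -/
def HSp.swap {T : V ≃ₗ[ℝ] V} (H : HSp T) : HSp T.symm where
  s := H.u
  u := H.s
  add v := by rw [add_comm, H.add]
  cs v := by
    apply T.injective
    rw [T.apply_symm_apply, ← H.cu, T.apply_symm_apply]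
  cu v := by
    apply T.injective
    rw [T.apply_symm_apply, ← H.cs, T.apply_symm_apply]
  C := H.C
  l := H.l
  hC := H.hC
  hl0 := H.hl0
  hl1 := H.hl1
  bs := H.bu
  bu n v := by
    rw [LinearEquiv.symm_symm]
    exact H.bs n v

theorem HSp.bs' {T : V ≃ₗ[ℝ] V} (H : HSp T) (n : ℕ) (v : V) : ‖T^[n] (H.s v)‖ ≤ H.C * ‖v‖ := by
  refine (H.bs n v).trans ?_
  have h1 : H.l ^ n ≤ 1 := pow_le_one₀ H.hl0 H.hl1.le
  have h2 : H.C * H.l ^ n ≤ H.C := by
    calc H.C * H.l ^ n ≤ H.C * 1 := mul_le_mul_of_nonneg_left h1 H.hC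
      _ = H.C := mul_one _
  exact mul_le_mul_of_nonneg_right h2 (norm_nonneg _)

theorem HSp.bu' {T : V ≃ₗ[ℝ] V} (H : HSp T) (n : ℕ) (v : V) :
    ‖T.symm^[n] (H.u v)‖ ≤ H.C * ‖v‖ := by
  refine (H.bu n v).trans ?_
  have h1 : H.l ^ n ≤ 1 := pow_le_one₀ H.hl0 H.hl1.le
  have h2 : H.C * H.l ^ n ≤ H.C := by
    calc H.C * H.l ^ n ≤ H.C * 1 := mul_le_mul_of_nonneg_left h1 H.hC
      _ = H.C := mul_one _
  exact mul_le_mul_of_nonneg_right h2 (norm_nonneg _)

/-- vectors with a bounded orbit are zero -/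
theorem HSp.eq_zero_sub {T : V ≃ₗ[ℝ] V} (H : HSp T) (v : V) (K : ℝ) (J : ℕ) (hJ : 1 ≤ J)
    (h1 : ∀ n : ℕ, ‖T^[J * n] v‖ ≤ K) (h2 : ∀ n : ℕ, ‖T.symm^[J * n] v‖ ≤ K) : v = 0 := by
  have hs : ∀ n : ℕ, H.s v = T^[n] (H.s (T.symm^[n] v)) := by
    intro n
    have hc : Function.Semiconj H.s T T := H.cs
    rw [← (hc.iterate_right n) (T.symm^[n] v)]
    congr 1
    exact ((Function.LeftInverse.iterate T.apply_symm_apply n) v).symm
  have hu : ∀ n : ℕ, H.u v = T.symm^[n] (H.u (T^[n] v)) := by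
    intro n
    have hc : Function.Semiconj H.u T.symm T.symm := H.swap.cs
    rw [← (hc.iterate_right n) (T^[n] v)]
    congr 1
    exact ((Function.LeftInverse.iterate T.symm_apply_apply n) v).symm
  have ht0 : Tendsto (fun n : ℕ => H.C * H.l ^ n * K) atTop (𝓝 0) := by
    have := ((tendsto_pow_atTop_nhds_zero_of_lt_one H.hl0 H.hl1).const_mul H.C).mul_const K
    simpa using this
  have ht : Tendsto (fun n : ℕ => H.C * H.l ^ (J * n) * K) atTop (𝓝 0) :=
    ht0.comp (tendsto_id.const_mul_atTop' (by omega : 0 < J))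
  have e1 : H.s v = 0 := by
    rw [← norm_le_zero_iff]
    refine ge_of_tendsto' ht fun n => ?_
    rw [hs (J * n)]
    exact (H.bs (J * n) _).trans (mul_le_mul_of_nonneg_left (h2 n)
      (mul_nonneg H.hC (pow_nonneg H.hl0 _)))
  have e2 : H.u v = 0 := by
    rw [← norm_le_zero_iff]
    refine ge_of_tendsto' ht fun n => ?_
    rw [hu (J * n)]
    exact (H.bu (J * n) _).trans (mul_le_mul_of_nonneg_left (h1 n)
      (mul_nonneg H.hC (pow_nonneg H.hl0 _)))
  rw [← H.add v, e1, e2, add_zero]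

theorem HSp.eq_zero {T : V ≃ₗ[ℝ] V} (H : HSp T) (v : V) (K : ℝ)
    (h1 : ∀ n : ℕ, ‖T^[n] v‖ ≤ K) (h2 : ∀ n : ℕ, ‖T.symm^[n] v‖ ≤ K) : v = 0 :=
  H.eq_zero_sub v K 1 le_rfl (fun n => h1 _) (fun n => h2 _)

end

/-- An expansive factor of a hyperbolic linear map modulo a cocompact group of translations. -/
structure FD (V Y : Type*) [NormedAddCommGroup V] [NormedSpace ℝ V] [MetricSpace Y] where
  T : V ≃ₗ[ℝ] V
  H : HSp T
  Λ : AddSubgroup V
  R : ℝ
  coc : ∀ v, ∃ a ∈ Λ, ‖v - a‖ ≤ R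
  TΛ : ∀ a ∈ Λ, T a ∈ Λ
  TΛ' : ∀ a ∈ Λ, T.symm a ∈ Λ
  g : Y ≃ₜ Y
  F : V → Y
  cont : Continuous F
  per : ∀ v, ∀ a ∈ Λ, F (v + a) = F v
  equi : ∀ v, F (T v) = g (F v)
  ε : ℝ
  hε : 0 < ε
  exp : ∀ a b, (∀ n : ℕ, dist (g^[n] a) (g^[n] b) ≤ ε) →
    (∀ n : ℕ, dist (g.symm^[n] a) (g.symm^[n] b) ≤ ε) → a = b

variable {V Y : Type*} [NormedAddCommGroup V] [NormedSpace ℝ V] [MetricSpace Y]

/-- the data of the inverse -/
def FD.swap (D : FD V Y) : FD V Y where
  T := D.T.symm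
  H := D.H.swap
  Λ := D.Λ
  R := D.R
  coc := D.coc
  TΛ := D.TΛ'
  TΛ' := D.TΛ
  g := D.g.symm
  F := D.F
  cont := D.cont
  per := D.per
  equi v := by
    rw [Homeomorph.eq_symm_apply, ← D.equi, D.T.apply_symm_apply]
  ε := D.ε
  hε := D.hε
  exp a b h1 h2 := D.exp a b h2 h1

theorem FD.iter (D : FD V Y) (n : ℕ) (v : V) : D.F (D.T^[n] v) = D.g^[n] (D.F v) := by
  have h : Function.Semiconj D.F D.T D.g := D.equi
  exact (h.iterate_right n) v

theorem FD.iter' (D : FD V Y) (n : ℕ) (v : V) : D.F (D.T.symm^[n] v) = D.g.symm^[n] (D.F v) :=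
  D.swap.iter n v

theorem FD.uc [FiniteDimensional ℝ V] (D : FD V Y) (e : ℝ) (he : 0 < e) :
    ∃ δ > 0, ∀ a b, ‖a - b‖ < δ → dist (D.F a) (D.F b) < e := by
  have hpr : ProperSpace V := FiniteDimensional.proper ℝ V
  have hK : IsCompact (closedBall (0 : V) (D.R + 1)) := isCompact_closedBall _ _
  have hu := hK.uniformContinuousOn_of_continuous D.cont.continuousOn
  rw [Metric.uniformContinuousOn_iff] at hu
  obtain ⟨δ, hδ, h⟩ := hu e he
  refine ⟨min δ 1, lt_min hδ one_pos, fun a b hab => ?_⟩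
  obtain ⟨c, hc, hac⟩ := D.coc a
  have e1 : D.F a = D.F (a - c) := by
    have := D.per (a - c) c hc
    rwa [sub_add_cancel] at this
  have e2 : D.F b = D.F (b - c) := by
    have := D.per (b - c) c hc
    rwa [sub_add_cancel] at this
  rw [e1, e2]
  have hab1 : ‖a - b‖ < δ := hab.trans_le (min_le_left _ _)
  have hab2 : ‖a - b‖ < 1 := hab.trans_le (min_le_right _ _)
  apply h
  · rw [mem_closedBall_zero_iff]; linarith
  · rw [mem_closedBall_zero_iff]
    have : b - c = (a - c) - (a - b) := by abel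
    rw [this]
    have := norm_sub_le (a - c) (a - b)
    linarith
  · rw [dist_eq_norm]
    have : a - c - (b - c) = a - b := by abel
    rwa [this]

/-- density of the unstable subspace modulo the translations -/
theorem FD.dense (D : FD V Y) (a : V) (e : ℝ) (he : 0 < e) :
    ∃ c ∈ D.Λ, ∃ w, ‖a - c - D.H.u w‖ < e := by
  have ht : Tendsto (fun n : ℕ => D.H.C * D.H.l ^ n * D.R) atTop (𝓝 0) := by
    have := ((tendsto_pow_atTop_nhds_zero_of_lt_one D.H.hl0 D.H.hl1).const_mul D.H.C).mul_const D.R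
    simpa using this
  obtain ⟨n, hn⟩ := ((tendsto_order.1 ht).2 e he).exists
  obtain ⟨c, hc, hbc⟩ := D.coc (D.T.symm^[n] a)
  have hcn : ∀ k : ℕ, D.T^[k] c ∈ D.Λ := by
    intro k
    induction k with
    | zero => exact hc
    | succ k ih => rw [Function.iterate_succ_apply']; exact D.TΛ _ ih
  refine ⟨D.T^[n] c, hcn n, D.T^[n] (D.T.symm^[n] a - c), ?_⟩
  have e1 : a = D.T^[n] (D.T.symm^[n] a) :=
    ((Function.LeftInverse.iterate D.T.apply_symm_apply n) a).symm
  have hsu : Function.Semiconj D.H.u D.T D.T := D.H.cu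
  have e2 : D.H.u (D.T^[n] (D.T.symm^[n] a - c)) = D.T^[n] (D.H.u (D.T.symm^[n] a - c)) :=
    (hsu.iterate_right n) _
  have e3 : a - D.T^[n] c - D.H.u (D.T^[n] (D.T.symm^[n] a - c)) =
      D.T^[n] (D.H.s (D.T.symm^[n] a - c)) := by
    rw [e2]
    nth_rewrite 1 [e1]
    rw [← iterate_map_sub, ← iterate_map_sub]
    congr 1
    have := D.H.add (D.T.symm^[n] a - c)
    rw [sub_eq_iff_eq_add]
    exact this.symm
  rw [e3]
  refine ((D.H.bs n _).trans ?_).trans_lt hn
  exact mul_le_mul_of_nonneg_left hbc (mul_nonneg D.H.hC (pow_nonneg D.H.hl0 n))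

/-- small identifications: the stable part is a period -/
theorem FD.stable_part [FiniteDimensional ℝ V] (D : FD V Y) :
    ∃ δ > 0, ∀ z w, ‖w‖ < δ → D.F (z + w) = D.F z →
      ∀ a, D.F (a + D.H.s w) = D.F a := by
  obtain ⟨η, hη, huc⟩ := D.uc (D.ε / 2) (half_pos D.hε)
  have hC1 : 0 < D.H.C + 1 := by have := D.H.hC; linarith
  have small : ∀ w : V, ‖w‖ < η / (D.H.C + 1) → D.H.C * ‖w‖ < η := by
    intro w hw
    rw [lt_div_iff₀ hC1] at hw
    have := norm_nonneg w
    nlinarith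
  have key : ∀ z w w', ‖w‖ < η / (D.H.C + 1) → ‖w'‖ < η / (D.H.C + 1) →
      D.F (z + D.H.s w) = D.F z → D.F (z + D.H.u w' + D.H.s w) = D.F (z + D.H.u w') := by
    intro z w w' hw hw' hz
    apply D.exp
    · intro n
      rw [← D.iter, ← D.iter]
      refine (huc _ _ ?_).le.trans (by have := D.hε; linarith)
      rw [← iterate_map_sub, add_sub_cancel_left]
      exact (D.H.bs' n w).trans_lt (small w hw)
    · intro n
      have h1 : dist (D.g.symm^[n] (D.F (z + D.H.u w' + D.H.s w)))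
          (D.g.symm^[n] (D.F (z + D.H.s w))) < D.ε / 2 := by
        rw [← D.iter', ← D.iter']
        apply huc
        rw [← iterate_map_sub]
        have : z + D.H.u w' + D.H.s w - (z + D.H.s w) = D.H.u w' := by abel
        rw [this]
        exact (D.H.bu' n w').trans_lt (small w' hw')
      have h2 : dist (D.g.symm^[n] (D.F z)) (D.g.symm^[n] (D.F (z + D.H.u w'))) < D.ε / 2 := by
        rw [← D.iter', ← D.iter']
        apply huc
        rw [← iterate_map_sub]
        have : z - (z + D.H.u w') = -(D.H.u w') := by abel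
        rw [this, iterate_map_neg, norm_neg]
        exact (D.H.bu' n w').trans_lt (small w' hw')
      rw [hz] at h1
      have := dist_triangle (D.g.symm^[n] (D.F (z + D.H.u w' + D.H.s w)))
          (D.g.symm^[n] (D.F z)) (D.g.symm^[n] (D.F (z + D.H.u w')))
      linarith
  refine ⟨η / (D.H.C + 1), div_pos hη hC1, fun z w hw hz a => ?_⟩
  -- first step
  have h1 : D.F (z + D.H.s w) = D.F z := by
    apply D.exp
    · intro n
      rw [← D.iter, ← D.iter]
      refine (huc _ _ ?_).le.trans (by have := D.hε; linarith)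
      rw [← iterate_map_sub, add_sub_cancel_left]
      exact (D.H.bs' n w).trans_lt (small w hw)
    · intro n
      rw [← hz, ← D.iter', ← D.iter']
      refine (huc _ _ ?_).le.trans (by have := D.hε; linarith)
      rw [← iterate_map_sub]
      have : z + D.H.s w - (z + w) = -(D.H.u w) := by
        have := D.H.add w
        nth_rewrite 2 [← this]
        abel
      rw [this, iterate_map_neg, norm_neg]
      exact (D.H.bu' n w).trans_lt (small w hw)
  -- along the unstable subspace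
  have h2 : ∀ w' : V, D.F (z + D.H.u w' + D.H.s w) = D.F (z + D.H.u w') := by
    intro w'
    obtain ⟨N, hN⟩ := exists_nat_gt (‖w'‖ / (η / (D.H.C + 1)))
    have hpos : 0 < η / (D.H.C + 1) := div_pos hη hC1
    have hN0 : (0 : ℝ) < N := lt_of_le_of_lt (div_nonneg (norm_nonneg _) hpos.le) hN
    have hsm : ‖(N : ℝ)⁻¹ • w'‖ < η / (D.H.C + 1) := by
      rw [norm_smul, norm_inv, Real.norm_of_nonneg hN0.le, inv_mul_lt_iff₀ hN0]
      rw [div_lt_iff₀ hpos] at hN
      linarith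
    have hk : ∀ k : ℕ, D.F (z + D.H.u ((k : ℝ) • (N : ℝ)⁻¹ • w') + D.H.s w) =
        D.F (z + D.H.u ((k : ℝ) • (N : ℝ)⁻¹ • w')) := by
      intro k
      induction k with
      | zero => simpa using h1
      | succ k ih =>
        have := key _ w ((N : ℝ)⁻¹ • w') hw hsm ih
        have e1 : z + D.H.u ((k : ℝ) • (N : ℝ)⁻¹ • w') + D.H.u ((N : ℝ)⁻¹ • w') =
            z + D.H.u (((k + 1 : ℕ) : ℝ) • (N : ℝ)⁻¹ • w') := by
          rw [add_assoc, ← map_add]
          congr 2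
          push_cast
          rw [add_smul, one_smul]
        rw [e1] at this
        exact this
    have := hk N
    rw [smul_smul, mul_inv_cancel₀ hN0.ne', one_smul] at this
    exact this
  -- density
  by_contra hne
  have hd : 0 < dist (D.F (a + D.H.s w)) (D.F a) := dist_pos.2 hne
  obtain ⟨θ, hθ, huc'⟩ := D.uc (dist (D.F (a + D.H.s w)) (D.F a) / 2) (half_pos hd)
  obtain ⟨c, hc, w', hw'⟩ := D.dense (a - z) θ hθ
  have h3 : D.F (z + D.H.u w' + D.H.s w + c) = D.F (z + D.H.u w' + c) := by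
    rw [D.per _ c hc, D.per _ c hc, h2]
  have h4 : dist (D.F (a + D.H.s w)) (D.F (z + D.H.u w' + D.H.s w + c)) <
      dist (D.F (a + D.H.s w)) (D.F a) / 2 := by
    apply huc'
    have : a + D.H.s w - (z + D.H.u w' + D.H.s w + c) = a - z - c - D.H.u w' := by abel
    rwa [this]
  have h5 : dist (D.F (z + D.H.u w' + c)) (D.F a) < dist (D.F (a + D.H.s w)) (D.F a) / 2 := by
    rw [dist_comm]
    apply huc'
    have : a - (z + D.H.u w' + c) = a - z - c - D.H.u w' := by abel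
    rwa [this]
  rw [h3] at h4
  have := dist_triangle (D.F (a + D.H.s w)) (D.F (z + D.H.u w' + c)) (D.F a)
  linarith

/-- the group of the periods -/
def FD.P (D : FD V Y) : AddSubgroup V where
  carrier := {w | ∀ a, D.F (a + w) = D.F a}
  add_mem' := by
    intro v w hv hw a
    rw [← add_assoc, hw, hv]
  zero_mem' := fun a => by rw [add_zero]
  neg_mem' := by
    intro w hw a
    have := hw (a + -w)
    rw [neg_add_cancel_right] at this
    exact this.symm

theorem FD.mem_P (D : FD V Y) (w : V) : w ∈ D.P ↔ ∀ a, D.F (a + w) = D.F a := Iff.rfl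

theorem FD.Λ_le (D : FD V Y) : D.Λ ≤ D.P := fun c hc a => D.per a c hc

theorem FD.closed_P (D : FD V Y) : IsClosed (D.P : Set V) := by
  have : (D.P : Set V) = ⋂ a, {w | D.F (a + w) = D.F a} := by
    ext w
    simp only [mem_iInter, mem_ofPred_eq, SetLike.mem_coe, D.mem_P]
  rw [this]
  exact isClosed_iInter fun a => isClosed_eq (D.cont.comp (by fun_prop)) continuous_const

/-- **Small identifications are periods.** -/
theorem FD.small [FiniteDimensional ℝ V] (D : FD V Y) :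
    ∃ δ > 0, ∀ z w, ‖w‖ < δ → D.F (z + w) = D.F z → w ∈ D.P ∧ D.H.s w ∈ D.P ∧ D.H.u w ∈ D.P := by
  obtain ⟨δ, hδ, h1⟩ := D.stable_part
  obtain ⟨δ', hδ', h2⟩ := D.swap.stable_part
  refine ⟨min δ δ', lt_min hδ hδ', fun z w hw hz => ?_⟩
  have e1 : D.H.s w ∈ D.P := h1 z w (hw.trans_le (min_le_left _ _)) hz
  have e2 : D.H.u w ∈ D.P := h2 z w (hw.trans_le (min_le_right _ _)) hz
  refine ⟨?_, e1, e2⟩
  rw [← D.H.add w]
  exact D.P.add_mem e1 e2

theorem FD.T_mem (D : FD V Y) {w : V} (hw : w ∈ D.P) : D.T w ∈ D.P := by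
  intro a
  have : a + D.T w = D.T (D.T.symm a + w) := by rw [map_add, D.T.apply_symm_apply]
  rw [this, D.equi, hw, ← D.equi, D.T.apply_symm_apply]

theorem FD.T_symm_mem (D : FD V Y) {w : V} (hw : w ∈ D.P) : D.T.symm w ∈ D.P :=
  D.swap.T_mem hw

end Pool.Agent.D0H26.Fac
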