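import Pool.Agent.TH553.K289.J918

/-!
A continuous `ℤᵏ`-periodic surjection `Q : ℝᵏ → M'` onto a manifold which is injective on balls
of a fixed radius is a covering map.
-/

set_option autoImplicit false
open Filter Topology Set Metric

namespace Pool.Agent.D0H26.Fac

variable {k : ℕ}

theorem injOn_ball {M' : Type*} {Q : (Fin k → ℝ) → M'} {δ : ℝ}
    (hi : ∀ x y, ‖x - y‖ < δ → Q x = Q y → x = y) (c : Fin k → ℝ) (hδ : 0 < δ) :
    InjOn Q (closedBall c (δ / 4)) := by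
  intro x hx y hy h
  refine hi x y ?_ h
  have h1 : dist x y ≤ dist x c + dist c y := dist_triangle _ _ _
  rw [mem_closedBall] at hx hy
  rw [dist_comm c y] at h1
  rw [← dist_eq_norm]
  linarith

/-- Dimension bound. -/
theorem finrank_le {E' : Type*} [NormedAddCommGroup E'] [NormedSpace ℝ E']
    [FiniteDimensional ℝ E'] {M' : Type*} [TopologicalSpace M'] [T2Space M'] [CompactSpace M']
    [ChartedSpace E' M'] (Q : (Fin k → ℝ) → M') (hc : Continuous Q)
    (hs : Function.Surjective Q) (δ : ℝ) (hδ : 0 < δ)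
    (hi : ∀ x y, ‖x - y‖ < δ → Q x = Q y → x = y) :
    Module.finrank ℝ E' ≤ Module.finrank ℝ (Fin k → ℝ) := by
  classical
  have hne : Nonempty M' := ⟨Q 0⟩
  obtain ⟨n, hn⟩ : ∃ n : ℕ, (interior (Q '' closedBall
      (TopologicalSpace.denseSeq (Fin k → ℝ) n) (δ / 4))).Nonempty := by
    apply nonempty_interior_of_iUnion_of_closed
    · intro n
      exact ((isCompact_closedBall _ _).image hc).isClosed
    · rw [eq_univ_iff_forall]
      intro y
      obtain ⟨x, rfl⟩ := hs y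
      obtain ⟨n, hn⟩ := (TopologicalSpace.denseRange_denseSeq (Fin k → ℝ)).exists_dist_lt x
        (show 0 < δ / 4 by positivity)
      exact mem_iUnion.2 ⟨n, x, mem_closedBall.2 hn.le, rfl⟩
  obtain ⟨c, hcdef⟩ : ∃ c, c = TopologicalSpace.denseSeq (Fin k → ℝ) n := ⟨_, rfl⟩
  rw [← hcdef] at hn
  obtain ⟨K, hK⟩ : ∃ K, K = Q '' closedBall c (δ / 4) := ⟨_, rfl⟩
  rw [← hK] at hn
  obtain ⟨y0, hy0⟩ := hn
  have hinj := injOn_ball hi c hδ
  have hne' : Nonempty (Fin k → ℝ) := ⟨0⟩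
  obtain ⟨g, hg⟩ : ∃ g, g = Function.invFunOn Q (closedBall c (δ / 4)) := ⟨_, rfl⟩
  have hgK : ∀ y ∈ K, g y ∈ closedBall c (δ / 4) ∧ Q (g y) = y := by
    intro y hy
    rw [hK] at hy
    rw [hg]
    exact ⟨Function.invFunOn_mem hy, Function.invFunOn_eq hy⟩
  have hgc : ContinuousOn g K := by
    rw [continuousOn_iff_isClosed]
    intro t ht
    refine ⟨Q '' (closedBall c (δ / 4) ∩ t),
      (((isCompact_closedBall _ _).inter_right ht).image hc).isClosed, ?_⟩
    ext y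
    constructor
    · rintro ⟨h1, h2⟩
      exact ⟨⟨g y, ⟨(hgK y h2).1, h1⟩, (hgK y h2).2⟩, h2⟩
    · rintro ⟨⟨x, ⟨hx1, hx2⟩, hx3⟩, h2⟩
      refine ⟨?_, h2⟩
      have h3 : g y = x := hinj (hgK y h2).1 hx1 (by rw [(hgK y h2).2, hx3])
      show g y ∈ t
      rw [h3]
      exact hx2
  obtain ⟨e, he⟩ : ∃ e, e = chartAt E' y0 := ⟨_, rfl⟩
  have hye : y0 ∈ e.source := by rw [he]; exact mem_chart_source E' y0
  have hO : IsOpen (e.target ∩ e.symm ⁻¹' interior K) :=
    e.isOpen_inter_preimage_symm isOpen_interior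
  refine Pool.Agent.W964.LieExp.finrank_le_of_injOn _ hO (e y0) ?_ (fun v => g (e.symm v)) ?_ ?_
  · refine ⟨e.map_source hye, ?_⟩
    show e.symm (e y0) ∈ interior K
    rw [e.left_inv hye]
    exact hy0
  · refine hgc.comp (e.continuousOn_symm.mono inter_subset_left) ?_
    intro v hv
    exact interior_subset hv.2
  · intro a ha b hb hab
    have h1 : e.symm a = e.symm b := by
      rw [← (hgK _ (interior_subset ha.2)).2, ← (hgK _ (interior_subset hb.2)).2]
      exact congrArg Q hab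
    exact e.symm.injOn ha.1 hb.1 h1

theorem isOpenMap_of_sep {E' : Type*} [NormedAddCommGroup E'] [NormedSpace ℝ E']
    [FiniteDimensional ℝ E'] {M' : Type*} [TopologicalSpace M'] [T2Space M'] [CompactSpace M']
    [ChartedSpace E' M'] (Q : (Fin k → ℝ) → M') (hc : Continuous Q)
    (hs : Function.Surjective Q) (δ : ℝ) (hδ : 0 < δ)
    (hi : ∀ x y, ‖x - y‖ < δ → Q x = Q y → x = y) : IsOpenMap Q := by
  rw [isOpenMap_iff_nhds_le]
  intro x s hs'
  rw [Filter.mem_map] at hs'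
  refine Filter.mem_of_superset (Pool.Agent.TH553.K289.image_nhds
    (finrank_le (E' := E') Q hc hs δ hδ hi) hc (closedBall_mem_nhds x (show 0 < δ / 4 by positivity))
    (injOn_ball hi x hδ) hs') ?_
  exact image_preimage_subset Q s

/-- fractional parts -/
theorem exists_shift (x : Fin k → ℝ) : ∃ z : Fin k → ℤ,
    (x + fun i => (z i : ℝ)) ∈ Icc (0 : Fin k → ℝ) 1 := by
  refine ⟨fun i => -⌊x i⌋, ?_, ?_⟩
  · intro i
    simp only [Pi.zero_apply, Pi.add_apply, Int.cast_neg]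
    have := Int.floor_le (x i)
    linarith
  · intro i
    simp only [Pi.one_apply, Pi.add_apply, Int.cast_neg]
    have := (Int.lt_floor_add_one (x i)).le
    linarith

/-- Covering. -/
theorem cov_of_open {M' : Type*} [TopologicalSpace M'] [T2Space M']
    (Q : (Fin k → ℝ) → M') (hc : Continuous Q)
    (hs : Function.Surjective Q) (ho : IsOpenMap Q)
    (hp : ∀ (x : Fin k → ℝ) (z : Fin k → ℤ), Q (x + fun i => (z i : ℝ)) = Q x)
    (δ : ℝ) (hδ : 0 < δ)
    (hi : ∀ x y, ‖x - y‖ < δ → Q x = Q y → x = y) : IsCoveringMap Q := by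
  classical
  intro y
  have hr : 0 < δ / 4 := by positivity
  have hcl : IsClosed (Q ⁻¹' {y}) := isClosed_singleton.preimage hc
  have hdisc : DiscreteTopology (Q ⁻¹' {y}) := by
    rw [discreteTopology_subtype_iff']
    intro x hx
    refine ⟨ball x δ, isOpen_ball, ?_⟩
    ext z
    constructor
    · rintro ⟨hz1, hz2⟩
      have h1 : z = x := hi z x (by rw [← dist_eq_norm]; exact hz1) (by
        rw [show Q z = y from hz2, show Q x = y from hx])
      exact h1
    · rintro rfl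
      exact ⟨mem_ball_self hδ, hx⟩
  have hfin : (Icc (0 : Fin k → ℝ) 1 ∩ Q ⁻¹' {y}).Finite := by
    have hcpt : IsCompact (Icc (0 : Fin k → ℝ) 1 ∩ Q ⁻¹' {y}) := isCompact_Icc.inter_right hcl
    refine hcpt.finite ?_
    exact ⟨DiscreteTopology.of_subset hdisc inter_subset_right⟩
  obtain ⟨x0, hx0⟩ := hs y
  have hball : ∀ (i : Fin k → ℝ) (z : Fin k → ℤ),
      Q '' ball (i + fun j => (z j : ℝ)) (δ / 4) ⊆ Q '' ball i (δ / 4) := by
    rintro i z _ ⟨x, hx, rfl⟩
    refine ⟨x + fun j => (((-z) j : ℤ) : ℝ), ?_, hp x (-z)⟩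
    rw [mem_ball, dist_eq_norm] at hx ⊢
    have h1 : (x + fun j => (((-z) j : ℤ) : ℝ)) - i = x - (i + fun j => (z j : ℝ)) := by
      funext j
      simp only [Pi.sub_apply, Pi.add_apply, Pi.neg_apply, Int.cast_neg]
      ring
    rw [h1]
    exact hx
  obtain ⟨C, hC⟩ : ∃ C, C = Icc (0 : Fin k → ℝ) 1 \ ⋃ i ∈ Q ⁻¹' {y}, ball i (δ / 4) := ⟨_, rfl⟩
  have hCc : IsCompact C := by
    rw [hC]
    exact isCompact_Icc.diff (isOpen_biUnion fun _ _ => isOpen_ball)
  obtain ⟨V, hV⟩ : ∃ V, V = (Q '' C)ᶜ ∩ ⋂ i ∈ Icc (0 : Fin k → ℝ) 1 ∩ Q ⁻¹' {y},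
      Q '' ball i (δ / 4) := ⟨_, rfl⟩
  have hVo : IsOpen V := by
    rw [hV]
    exact (hCc.image hc).isClosed.isOpen_compl.inter
      (hfin.isOpen_biInter fun i _ => ho _ isOpen_ball)
  have hyV : y ∈ V := by
    rw [hV]
    constructor
    · rintro ⟨x, hx, hxy⟩
      rw [hC] at hx
      exact hx.2 (mem_biUnion (show x ∈ Q ⁻¹' {y} from hxy) (mem_ball_self hr))
    · rw [mem_iInter₂]
      intro i hi'
      exact ⟨i, mem_ball_self hr, hi'.2⟩
  have hVb : ∀ i ∈ Q ⁻¹' {y}, V ⊆ Q '' ball i (δ / 4) := by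
    intro i hi' v hv
    obtain ⟨z, hz⟩ := exists_shift i
    refine hball i z ?_
    rw [hV] at hv
    exact mem_iInter₂.1 hv.2 _ ⟨hz, by
      show Q _ ∈ ({y} : Set M')
      rw [hp]
      exact hi'⟩
  have hex : Q ⁻¹' V ⊆ ⋃ i : Q ⁻¹' {y}, ball (i : Fin k → ℝ) (δ / 4) := by
    intro x hx
    obtain ⟨z, hz⟩ := exists_shift x
    have h1 : Q (x + fun i => (z i : ℝ)) ∈ V := by rw [hp]; exact hx
    by_cases h2 : (x + fun i => (z i : ℝ)) ∈ ⋃ i ∈ Q ⁻¹' {y}, ball i (δ / 4)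
    · obtain ⟨i, hi1, hi2⟩ := mem_iUnion₂.1 h2
      refine mem_iUnion.2 ⟨⟨i + fun j => (((-z) j : ℤ) : ℝ), ?_⟩, ?_⟩
      · show Q _ ∈ ({y} : Set M')
        rw [hp]
        exact hi1
      · rw [mem_ball, dist_eq_norm] at hi2 ⊢
        have h3 : x - (i + fun j => (((-z) j : ℤ) : ℝ)) = (x + fun j => (z j : ℝ)) - i := by
          funext j
          simp only [Pi.sub_apply, Pi.add_apply, Pi.neg_apply, Int.cast_neg]
          ring
        show ‖x - (i + fun j => (((-z) j : ℤ) : ℝ))‖ < δ / 4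
        rw [h3]
        exact hi2
    · exfalso
      rw [hV] at h1
      exact h1.1 ⟨_, by rw [hC]; exact ⟨hz, h2⟩, rfl⟩
  have hn1 : Nonempty (M' → (Fin k → ℝ)) := ⟨fun _ => 0⟩
  have hn2 : Nonempty (Q ⁻¹' {y}) := ⟨⟨x0, hx0⟩⟩
  refine IsEvenlyCovered.of_trivialization (t := hVo.trivializationDiscrete (f := Q)
    (fun i : Q ⁻¹' {y} => ball (i : Fin k → ℝ) (δ / 4)) V
    (fun i W hW => ⟨fun h => (h.preimage hc).inter isOpen_ball, fun h => ?_⟩)
    (fun i => (injOn_ball hi i hδ).mono ball_subset_closedBall)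
    (fun i v hv => hVb i i.2 hv) ?_ hex) hyV
  · have h1 : Q '' (Q ⁻¹' W ∩ ball (i : Fin k → ℝ) (δ / 4)) = W := by
      ext w
      constructor
      · rintro ⟨x, ⟨hx, -⟩, rfl⟩
        exact hx
      · intro hw
        obtain ⟨x, hx, rfl⟩ := hVb i i.2 (hW hw)
        exact ⟨x, ⟨hw, hx⟩, rfl⟩
    rw [← h1]
    exact ho _ h
  · intro i j hij
    show Disjoint (ball (i : Fin k → ℝ) (δ / 4)) (ball (j : Fin k → ℝ) (δ / 4))
    apply ball_disjoint_ball
    by_contra hlt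
    apply hij
    apply Subtype.ext
    refine hi _ _ ?_ ?_
    · rw [← dist_eq_norm]
      linarith
    · rw [show Q (i : Fin k → ℝ) = y from i.2, show Q (j : Fin k → ℝ) = y from j.2]

theorem cov_of_sep {E' : Type*} [NormedAddCommGroup E'] [NormedSpace ℝ E']
    [FiniteDimensional ℝ E'] {M' : Type*} [TopologicalSpace M'] [T2Space M'] [CompactSpace M']
    [ChartedSpace E' M'] (Q : (Fin k → ℝ) → M') (hc : Continuous Q)
    (hs : Function.Surjective Q)
    (hp : ∀ (x : Fin k → ℝ) (z : Fin k → ℤ), Q (x + fun i => (z i : ℝ)) = Q x)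
    (δ : ℝ) (hδ : 0 < δ)
    (hi : ∀ x y, ‖x - y‖ < δ → Q x = Q y → x = y) : IsCoveringMap Q :=
  cov_of_open Q hc hs (isOpenMap_of_sep (E' := E') Q hc hs δ hδ hi) hp δ hδ hi

end Pool.Agent.D0H26.Fac
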