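import Pool.Agent.H779R2.To.TDef

/-!
# Torus homomorphisms and hyperbolic infra-toral automorphisms
-/

set_option autoImplicit false

namespace Pool.Agent.D0H26.Fac

open Pool.Agent.H779R2.To (HypMat)

/-- The homomorphism `x ↦ N x` of the torus `(ℝ/ℤ)ᵐ` to the torus `(ℝ/ℤ)ᵏ` given by an integer
matrix `N`. -/
noncomputable def tm {k m : ℕ} (N : Matrix (Fin k) (Fin m) ℤ) (x : Fin m → AddCircle (1 : ℝ)) :
    Fin k → AddCircle (1 : ℝ) := fun i => ∑ j, N i j • x j

/-- `g` is topologically conjugate to a hyperbolic infra-toral automorphism: there are a matrix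
`A ∈ GL(m, ℤ)` without eigenvalues of modulus one and a covering map `P : ℝᵐ → X` onto `X` with
`g ∘ P = P ∘ A`, such that `P` is `ℤᵐ`-periodic, every fibre of `P` is a finite union of
`ℤᵐ`-orbits, and the deck transformations of `P` are affine maps `x ↦ B x + c` with
`B ∈ GL(m, ℤ)`, and they are transitive on the fibres of `P`. -/
def InfraToral {X : Type*} [TopologicalSpace X] (g : X → X) : Prop :=
  ∃ (m : ℕ) (A : Matrix (Fin m) (Fin m) ℤ) (P : (Fin m → ℝ) → X),
    IsUnit A.det ∧ HypMat A ∧ IsCoveringMap P ∧ Function.Surjective P ∧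
    (∀ x, g (P x) = P ((A.map (Int.cast : ℤ → ℝ)).mulVec x)) ∧
    (∀ (x : Fin m → ℝ) (z : Fin m → ℤ), P (x + fun i => (z i : ℝ)) = P x) ∧
    (∀ a, ∃ S : Finset (Fin m → ℝ), ∀ x, P x = a → ∃ s ∈ S, ∃ z : Fin m → ℤ,
      x = s + fun i => (z i : ℝ)) ∧
    ∀ x y, P x = P y → ∃ (B : Matrix (Fin m) (Fin m) ℤ) (c : Fin m → ℝ), IsUnit B.det ∧
      y = (B.map (Int.cast : ℤ → ℝ)).mulVec x + c ∧
      ∀ w, P ((B.map (Int.cast : ℤ → ℝ)).mulVec w + c) = P w

end Pool.Agent.D0H26.Fac
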