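import Mathlib

/-!
# Reduction to a discrete group of periods
-/

set_option autoImplicit false

open Filter Topology Set Metric Submodule

namespace Pool.Agent.D0H26.Fac

/-- the largest subspace contained in a subgroup -/
def subV {V : Type*} [NormedAddCommGroup V] [NormedSpace ℝ V] (P : AddSubgroup V) :
    Submodule ℝ V where
  carrier := {v | ∀ t : ℝ, t • v ∈ P}
  add_mem' := by
    intro v w hv hw t
    rw [smul_add]
    exact P.add_mem (hv t) (hw t)
  zero_mem' := by
    intro t
    rw [smul_zero]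
    exact P.zero_mem
  smul_mem' := by
    intro c v hv t
    rw [smul_smul]
    exact hv (t * c)

theorem subV_le {V : Type*} [NormedAddCommGroup V] [NormedSpace ℝ V] {P : AddSubgroup V} {v : V}
    (hv : v ∈ subV P) : v ∈ P := by
  have := hv 1
  rwa [one_smul] at this

/-- a closed subgroup without lines is discrete -/
theorem discrete_of_closed {U : Type*} [NormedAddCommGroup U] [NormedSpace ℝ U]
    [FiniteDimensional ℝ U] (G : AddSubgroup U) (hG : IsClosed (G : Set U))
    (h0 : ∀ v : U, (∀ t : ℝ, t • v ∈ G) → v = 0) : ∃ δ > 0, ∀ x ∈ G, ‖x‖ < δ → x = 0 := by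
  by_contra hcon
  push Not at hcon
  have hpr : ProperSpace U := FiniteDimensional.proper ℝ U
  have hx : ∀ n : ℕ, ∃ x ∈ G, ‖x‖ < 1 / ((n : ℝ) + 1) ∧ x ≠ 0 := fun n =>
    hcon _ (by positivity)
  choose x hxG hxn hx0 using hx
  have hsph : ∀ n, ‖x n‖⁻¹ • x n ∈ sphere (0 : U) 1 := by
    intro n
    rw [mem_sphere_zero_iff_norm, norm_smul, norm_inv, norm_norm,
      inv_mul_cancel₀ (norm_ne_zero_iff.2 (hx0 n))]
  obtain ⟨e, he, φ, hφ, hlim⟩ := (isCompact_sphere (0 : U) 1).tendsto_subseq hsph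
  have hx1 : Tendsto (fun n => ‖x n‖) atTop (𝓝 0) := by
    refine squeeze_zero (fun n => norm_nonneg _) (fun n => (hxn n).le) ?_
    exact tendsto_one_div_add_atTop_nhds_zero_nat
  have hx2 : Tendsto (fun n => ‖x (φ n)‖) atTop (𝓝 0) := hx1.comp hφ.tendsto_atTop
  have hmem : ∀ t : ℝ, t • e ∈ G := by
    intro t
    have h1 : Tendsto (fun n => t • (‖x (φ n)‖⁻¹ • x (φ n))) atTop (𝓝 (t • e)) := hlim.const_smul t
    have h2 : Tendsto (fun n => (⌊t * ‖x (φ n)‖⁻¹⌋ : ℤ) • x (φ n)) atTop (𝓝 (t • e)) := by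
      refine tendsto_of_tendsto_of_dist h1 ?_
      refine squeeze_zero (fun n => dist_nonneg) (fun n => ?_) hx2
      rw [dist_eq_norm, smul_smul, ← Int.cast_smul_eq_zsmul ℝ, ← sub_smul, norm_smul]
      have h3 : ‖t * ‖x (φ n)‖⁻¹ - (⌊t * ‖x (φ n)‖⁻¹⌋ : ℝ)‖ ≤ 1 := by
        rw [Int.self_sub_floor, Real.norm_of_nonneg (Int.fract_nonneg _)]
        exact (Int.fract_lt_one _).le
      calc _ ≤ 1 * ‖x (φ n)‖ := mul_le_mul_of_nonneg_right h3 (norm_nonneg _)
        _ = _ := one_mul _
    exact hG.mem_of_tendsto h2 (Eventually.of_forall fun n => G.zsmul_mem (hxG _) _)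
  have := h0 e hmem
  rw [this] at he
  simp at he

/-- a coordinate system adapted to a closed cocompact subgroup -/
theorem exists_proj {V : Type*} [NormedAddCommGroup V] [NormedSpace ℝ V] [FiniteDimensional ℝ V]
    (P : AddSubgroup V) (hPc : IsClosed (P : Set V)) (R : ℝ)
    (hcoc : ∀ v, ∃ a ∈ P, ‖v - a‖ ≤ R) :
    ∃ (k : ℕ) (p : V →ₗ[ℝ] (Fin k → ℝ)) (ι : (Fin k → ℝ) →ₗ[ℝ] V),
      (∀ x, p (ι x) = x) ∧ (∀ v, v - ι (p v) ∈ subV P) ∧
      (∀ w ∈ P, ∃ z : Fin k → ℤ, p w = fun i => (z i : ℝ)) ∧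
      ∀ z : Fin k → ℤ, ι (fun i => (z i : ℝ)) ∈ P := by
  obtain ⟨U, hU⟩ := (subV P).exists_isCompl
  have hU' : IsCompl U (subV P) := hU.symm
  set q := U.projectionOnto (subV P) hU' with hq
  have hqm : ∀ v, v - (q v : V) ∈ subV P := fun v => sub_projection_mem hU' v
  have hqP : ∀ w ∈ P, (q w : V) ∈ P := by
    intro w hw
    have : (q w : V) = w - (w - (q w : V)) := by abel
    rw [this]
    exact P.sub_mem hw (subV_le (hqm w))
  have hqU : ∀ x : U, q x = x := fun x => projectionOnto_apply_left hU' x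
  set G : AddSubgroup U := P.comap U.subtype.toAddMonoidHom with hG
  have hmG : ∀ x : U, x ∈ G ↔ (x : V) ∈ P := fun x => Iff.rfl
  have hGc : IsClosed (G : Set U) := hPc.preimage continuous_subtype_val
  obtain ⟨δ, hδ, hdis⟩ := discrete_of_closed G hGc (by
    intro v hv
    have h1 : (v : V) ∈ subV P := fun t => hv t
    have h2 : (v : V) ∈ U ⊓ subV P := ⟨v.2, h1⟩
    rw [hU'.inf_eq_bot, Submodule.mem_bot] at h2
    exact Subtype.ext h2)
  set L : Submodule ℤ U := AddSubgroup.toIntSubmodule G with hL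
  have hmL : ∀ x : U, x ∈ L ↔ (x : V) ∈ P := fun x => Iff.rfl
  have hdisc : DiscreteTopology L := by
    refine discreteTopology_of_isOpen_singleton_zero ?_
    have : ({0} : Set L) = (fun x : L => (x : U)) ⁻¹' (ball 0 δ) := by
      ext x
      simp only [mem_singleton_iff, mem_preimage, mem_ball_zero_iff]
      constructor
      · rintro rfl
        simpa using hδ
      · intro hx
        exact Subtype.ext (hdis x x.2 hx)
    rw [this]
    exact isOpen_ball.preimage continuous_subtype_val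
  have hlat : IsZLattice ℝ L := by
    refine ⟨?_⟩
    rw [eq_top_iff]
    -- the periods span
    have hspan : Submodule.span ℝ (P : Set V) = ⊤ := by
      by_contra hne
      obtain ⟨f, hf0, hf⟩ := Submodule.exists_le_ker_of_lt_top _ (lt_top_iff_ne_top.2 hne)
      apply hf0
      have hfb : ∀ v, |f v| ≤ ‖LinearMap.toContinuousLinearMap f‖ * R := by
        intro v
        obtain ⟨c, hc, hvc⟩ := hcoc v
        have h1 : f c = 0 := LinearMap.mem_ker.1 (hf (Submodule.subset_span (hc)))
        have h2 : f v = LinearMap.toContinuousLinearMap f (v - c) := by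
          show f v = f (v - c)
          rw [map_sub, h1, sub_zero]
        rw [h2, ← Real.norm_eq_abs]
        exact ((LinearMap.toContinuousLinearMap f).le_opNorm _).trans
          (mul_le_mul_of_nonneg_left hvc (norm_nonneg _))
      ext v
      by_contra hv
      obtain ⟨N, hN⟩ := exists_nat_gt (‖LinearMap.toContinuousLinearMap f‖ * R / |f v|)
      have hpos : 0 < |f v| := abs_pos.2 hv
      rw [div_lt_iff₀ hpos] at hN
      have h3 := hfb ((N : ℝ) • v)
      rw [map_smul, smul_eq_mul, abs_mul, Nat.abs_cast] at h3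
      linarith
    intro x _
    have h1 : (x : V) ∈ Submodule.span ℝ (P : Set V) := by rw [hspan]; trivial
    have h2 : q x ∈ Submodule.map q (Submodule.span ℝ (P : Set V)) :=
      Submodule.mem_map_of_mem h1
    rw [Submodule.map_span, hqU] at h2
    refine Submodule.span_mono ?_ h2
    rintro _ ⟨w, hw, rfl⟩
    exact hqP w hw
  have hfree : Module.Free ℤ L := ZLattice.module_free ℝ L
  have hfin : Module.Finite ℤ L := ZLattice.module_finite ℝ L
  set k := Module.finrank ℤ L with hk
  set b : Module.Basis (Fin k) ℤ L := Module.finBasis ℤ L with hb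
  set bR : Module.Basis (Fin k) ℝ U := b.ofZLatticeBasis ℝ L with hbR
  refine ⟨k, bR.equivFun.toLinearMap ∘ₗ q, U.subtype ∘ₗ bR.equivFun.symm.toLinearMap, ?_, ?_, ?_, ?_⟩
  · intro x
    show bR.equivFun (q ((bR.equivFun.symm x : U) : V)) = x
    rw [hqU, LinearEquiv.apply_symm_apply]
  · intro v
    show v - ((bR.equivFun.symm (bR.equivFun (q v)) : U) : V) ∈ subV P
    rw [LinearEquiv.symm_apply_apply]
    exact hqm v
  · intro w hw
    have h1 : q w ∈ L := hqP w hw
    refine ⟨fun i => b.repr ⟨q w, h1⟩ i, ?_⟩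
    funext i
    show bR.equivFun (q w) i = _
    rw [Module.Basis.equivFun_apply]
    exact b.ofZLatticeBasis_repr_apply ℝ L ⟨q w, h1⟩ i
  · intro z
    show ((bR.equivFun.symm (fun i => (z i : ℝ)) : U) : V) ∈ P
    rw [← hmL, Module.Basis.equivFun_symm_apply]
    refine Submodule.sum_mem _ fun i _ => ?_
    rw [Int.cast_smul_eq_zsmul, hbR, Module.Basis.ofZLatticeBasis_apply]
    exact L.smul_mem _ (b i).2

end Pool.Agent.D0H26.Fac
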