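import Pool.Agent.D0H26.Fac.Lin
import Pool.Agent.D0H26.Fac.Red

/-!
# Expansive factors of affine maps modulo a cocompact group of translations
-/

set_option autoImplicit false
set_option linter.unusedSectionVars false

open Filter Topology Set Metric

namespace Pool.Agent.D0H26.Fac

open Pool.Agent.H779R2.To (HypMat)

/-- An expansive factor of an affine map modulo a cocompact group of translations. -/
structure GD (V Y : Type*) [NormedAddCommGroup V] [NormedSpace ℝ V] [MetricSpace Y] where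
  T : V ≃ₗ[ℝ] V
  b : V
  Λ : AddSubgroup V
  R : ℝ
  coc : ∀ v, ∃ a ∈ Λ, ‖v - a‖ ≤ R
  g : Y ≃ₜ Y
  F : V → Y
  cont : Continuous F
  per : ∀ v, ∀ a ∈ Λ, F (v + a) = F v
  equi : ∀ v, F (T v + b) = g (F v)
  ε : ℝ
  hε : 0 < ε
  exp : ∀ a b, (∀ n : ℕ, dist (g^[n] a) (g^[n] b) ≤ ε) →
    (∀ n : ℕ, dist (g.symm^[n] a) (g.symm^[n] b) ≤ ε) → a = b

/-- the group of the periods of a function -/
def perG {V Y : Type*} [AddCommGroup V] (F : V → Y) : AddSubgroup V where
  carrier := {w | ∀ a, F (a + w) = F a}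
  add_mem' := by
    intro v w hv hw a
    rw [← add_assoc, hw, hv]
  zero_mem' := fun a => by rw [add_zero]
  neg_mem' := by
    intro w hw a
    have := hw (a + -w)
    rw [neg_add_cancel_right] at this
    exact this.symm

variable {V Y : Type*} [NormedAddCommGroup V] [NormedSpace ℝ V] [MetricSpace Y]

theorem mem_perG (F : V → Y) (w : V) : w ∈ perG F ↔ ∀ a, F (a + w) = F a := Iff.rfl

theorem closed_perG {F : V → Y} (hF : Continuous F) : IsClosed (perG F : Set V) := by
  have : (perG F : Set V) = ⋂ a, {w | F (a + w) = F a} := by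
    ext w
    simp only [mem_iInter, mem_ofPred_eq, SetLike.mem_coe, mem_perG]
  rw [this]
  exact isClosed_iInter fun a => isClosed_eq (hF.comp (by fun_prop)) continuous_const

theorem uc_per [FiniteDimensional ℝ V] (Λ : AddSubgroup V) (R : ℝ)
    (coc : ∀ v, ∃ a ∈ Λ, ‖v - a‖ ≤ R) (F : V → Y) (cont : Continuous F)
    (per : ∀ v, ∀ a ∈ Λ, F (v + a) = F v) (e : ℝ) (he : 0 < e) :
    ∃ δ > 0, ∀ a b, ‖a - b‖ < δ → dist (F a) (F b) < e := by
  have hpr : ProperSpace V := FiniteDimensional.proper ℝ V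
  have hK : IsCompact (closedBall (0 : V) (R + 1)) := isCompact_closedBall _ _
  have hu := hK.uniformContinuousOn_of_continuous cont.continuousOn
  rw [Metric.uniformContinuousOn_iff] at hu
  obtain ⟨δ, hδ, h⟩ := hu e he
  refine ⟨min δ 1, lt_min hδ one_pos, fun a b hab => ?_⟩
  obtain ⟨c, hc, hac⟩ := coc a
  have e1 : F a = F (a - c) := by
    have := per (a - c) c hc
    rwa [sub_add_cancel] at this
  have e2 : F b = F (b - c) := by
    have := per (b - c) c hc
    rwa [sub_add_cancel] at this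
  rw [e1, e2]
  have hab1 : ‖a - b‖ < δ := hab.trans_le (min_le_left _ _)
  have hab2 : ‖a - b‖ < 1 := hab.trans_le (min_le_right _ _)
  apply h
  · rw [mem_closedBall_zero_iff]; linarith
  · rw [mem_closedBall_zero_iff]
    have : b - c = (a - c) - (a - b) := by abel
    rw [this]
    have := norm_sub_le (a - c) (a - b)
    linarith
  · rw [dist_eq_norm]
    have : a - c - (b - c) = a - b := by abel
    rwa [this]

theorem GD.T_mem (D : GD V Y) {w : V} (hw : w ∈ perG D.F) : D.T w ∈ perG D.F := by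
  intro a
  have e1 : a + D.T w = D.T (D.T.symm (a - D.b) + w) + D.b := by
    rw [map_add, D.T.apply_symm_apply]
    abel
  have e2 : a = D.T (D.T.symm (a - D.b)) + D.b := by
    rw [D.T.apply_symm_apply]
    abel
  rw [e1, D.equi, hw, ← D.equi, ← e2]

theorem GD.T_symm_mem (D : GD V Y) {w : V} (hw : w ∈ perG D.F) : D.T.symm w ∈ perG D.F := by
  intro a
  apply D.g.injective
  rw [← D.equi, ← D.equi]
  have e1 : D.T (a + D.T.symm w) + D.b = (D.T a + D.b) + w := by
    rw [map_add, D.T.apply_symm_apply]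
    abel
  rw [e1, hw]

theorem intG_coc {k : ℕ} (v : Fin k → ℝ) : ∃ a ∈ intG k, ‖v - a‖ ≤ 1 := by
  refine ⟨intV fun i => ⌊v i⌋, ⟨_, rfl⟩, ?_⟩
  rw [pi_norm_le_iff_of_nonneg zero_le_one]
  intro i
  show ‖v i - (⌊v i⌋ : ℝ)‖ ≤ 1
  rw [Int.self_sub_floor, Real.norm_of_nonneg (Int.fract_nonneg _)]
  exact (Int.fract_lt_one _).le

/-- without periods that are not integral there are no nonzero bounded orbits -/
theorem no_bounded {k : ℕ} (T : (Fin k → ℝ) ≃ₗ[ℝ] (Fin k → ℝ)) (b : Fin k → ℝ) (g : Y ≃ₜ Y)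
    (F : (Fin k → ℝ) → Y) (cont : Continuous F) (per : ∀ v, ∀ a ∈ intG k, F (v + a) = F v)
    (equi : ∀ v, F (T v + b) = g (F v)) (ε : ℝ) (hε : 0 < ε)
    (exp : ∀ a b, (∀ n : ℕ, dist (g^[n] a) (g^[n] b) ≤ ε) →
      (∀ n : ℕ, dist (g.symm^[n] a) (g.symm^[n] b) ≤ ε) → a = b)
    (hP : ∀ x ∈ perG F, x ∈ intG k) (v : Fin k → ℝ) (K : ℝ)
    (h1 : ∀ n : ℕ, ‖T^[n] v‖ ≤ K) (h2 : ∀ n : ℕ, ‖T.symm^[n] v‖ ≤ K) : v = 0 := by
  obtain ⟨δ, hδ, huc⟩ := uc_per (intG k) 1 intG_coc F cont per ε hε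
  have hK : 0 ≤ K := (norm_nonneg _).trans (h1 0)
  have e1 : ∀ (n : ℕ) (x y : Fin k → ℝ),
      (fun v => T v + b)^[n] x - (fun v => T v + b)^[n] y = T^[n] (x - y) := by
    intro n
    induction n with
    | zero => intro x y; rfl
    | succ n ih =>
      intro x y
      rw [Function.iterate_succ_apply, Function.iterate_succ_apply, ih,
        Function.iterate_succ_apply]
      congr 1
      rw [map_sub]
      abel
  have e2 : ∀ (n : ℕ) (x y : Fin k → ℝ),
      (fun v => T.symm (v - b))^[n] x - (fun v => T.symm (v - b))^[n] y = T.symm^[n] (x - y) := by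
    intro n
    induction n with
    | zero => intro x y; rfl
    | succ n ih =>
      intro x y
      rw [Function.iterate_succ_apply, Function.iterate_succ_apply, ih,
        Function.iterate_succ_apply]
      congr 1
      rw [← map_sub]
      congr 1
      abel
  have f1 : ∀ (n : ℕ) x, F ((fun v => T v + b)^[n] x) = g^[n] (F x) := fun n x =>
    (show Function.Semiconj F (fun v => T v + b) g from equi).iterate_right n x
  have f2 : ∀ (n : ℕ) x, F ((fun v => T.symm (v - b))^[n] x) = g.symm^[n] (F x) := fun n x =>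
    (show Function.Semiconj F (fun v => T.symm (v - b)) g.symm from fun v => by
      rw [Homeomorph.eq_symm_apply, ← equi, T.apply_symm_apply, sub_add_cancel]).iterate_right n x
  have key : ∀ t : ℝ, |t| * K < δ → t • v ∈ perG F := by
    intro t ht x
    have hl1 : ∀ n : ℕ, ‖T^[n] (t • v)‖ < δ := by
      intro n
      have : T^[n] (t • v) = t • T^[n] v := by
        induction n with
        | zero => rfl
        | succ n ih => rw [Function.iterate_succ_apply', ih, map_smul, Function.iterate_succ_apply']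
      rw [this, norm_smul, Real.norm_eq_abs]
      exact (mul_le_mul_of_nonneg_left (h1 n) (abs_nonneg _)).trans_lt ht
    have hl2 : ∀ n : ℕ, ‖T.symm^[n] (t • v)‖ < δ := by
      intro n
      have : T.symm^[n] (t • v) = t • T.symm^[n] v := by
        induction n with
        | zero => rfl
        | succ n ih => rw [Function.iterate_succ_apply', ih, map_smul, Function.iterate_succ_apply']
      rw [this, norm_smul, Real.norm_eq_abs]
      exact (mul_le_mul_of_nonneg_left (h2 n) (abs_nonneg _)).trans_lt ht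
    apply exp
    · intro n
      rw [← f1, ← f1]
      refine (huc _ _ ?_).le
      rw [e1, add_sub_cancel_left]
      exact hl1 n
    · intro n
      rw [← f2, ← f2]
      refine (huc _ _ ?_).le
      rw [e2, add_sub_cancel_left]
      exact hl2 n
  have hpos : 0 < K + 1 := by linarith
  obtain ⟨t, ht⟩ : ∃ t, t = min δ 1 / (2 * (K + 1)) := ⟨_, rfl⟩
  have hm : 0 < min δ 1 := lt_min hδ one_pos
  have ht0 : 0 < t := by rw [ht]; positivity
  have htK : t * (K + 1) < min δ 1 := by
    have : t * (K + 1) = min δ 1 / 2 := by rw [ht]; field_simp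
    rw [this]
    exact half_lt_self hm
  have htK' : |t| * K < min δ 1 := by
    rw [abs_of_pos ht0]
    nlinarith
  have hmem := hP _ (key t (htK'.trans_le (min_le_left _ _)))
  obtain ⟨z, hz⟩ := hmem
  have h0 : t • v = 0 := by
    rw [hz]
    apply intV_small
    rw [← hz, norm_smul, Real.norm_eq_abs]
    exact ((mul_le_mul_of_nonneg_left (h1 0) (abs_nonneg _)).trans_lt htK').trans_le
      (min_le_right _ _)
  exact (smul_eq_zero.1 h0).resolve_left ht0.ne'

/-- **Reduction.** The factor map is the composition of an affine projection and of a locally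
injective factor map of a hyperbolic automorphism of a torus. -/
theorem GD.reduce [FiniteDimensional ℝ V] (D : GD V Y) :
    ∃ (k : ℕ) (B : Matrix (Fin k) (Fin k) ℤ) (p : V →ₗ[ℝ] (Fin k → ℝ)) (c : Fin k → ℝ)
      (Q : (Fin k → ℝ) → Y),
      IsUnit B.det ∧ HypMat B ∧ Continuous Q ∧
      (∀ (x : Fin k → ℝ) (z : Fin k → ℤ), Q (x + fun i => (z i : ℝ)) = Q x) ∧
      (∀ x, Q ((B.map (Int.cast : ℤ → ℝ)).mulVec x) = D.g (Q x)) ∧
      (∀ v, D.F v = Q (p v + c)) ∧ Function.Surjective p ∧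
      (∀ v, p (D.T v) = (B.map (Int.cast : ℤ → ℝ)).mulVec (p v)) ∧
      (∀ v, p (D.T v + D.b) + c = (B.map (Int.cast : ℤ → ℝ)).mulVec (p v + c)) ∧
      (∀ w ∈ D.Λ, ∃ z : Fin k → ℤ, p w = fun i => (z i : ℝ)) ∧
      (∀ v, (∀ x, Q (x + v) = Q x) → v ∈ intG k) ∧
      (∃ T : (Fin k → ℝ) ≃ₗ[ℝ] (Fin k → ℝ), Nonempty (HSp T) ∧
        (∀ x, T x = (B.map (Int.cast : ℤ → ℝ)).mulVec x) ∧ (∀ x ∈ intG k, T x ∈ intG k) ∧
        ∀ x ∈ intG k, T.symm x ∈ intG k) ∧
      ∃ δ > 0, ∀ x y, ‖x - y‖ < δ → Q x = Q y → x = y := by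
  have hΛ : D.Λ ≤ perG D.F := fun c hc a => D.per a c hc
  obtain ⟨k, p, ι, h1, h2, h3, h4⟩ := exists_proj (perG D.F) (closed_perG D.cont) D.R
    (fun v => by
      obtain ⟨a, ha, hva⟩ := D.coc v
      exact ⟨a, hΛ ha, hva⟩)
  have hT_V0 : ∀ v ∈ subV (perG D.F), D.T v ∈ subV (perG D.F) := by
    intro v hv t
    rw [← map_smul]
    exact D.T_mem (hv t)
  have hTs_V0 : ∀ v ∈ subV (perG D.F), D.T.symm v ∈ subV (perG D.F) := by
    intro v hv t
    rw [← map_smul]
    exact D.T_symm_mem (hv t)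
  have hp0 : ∀ v ∈ subV (perG D.F), p v = 0 := by
    intro v hv
    funext i
    by_contra hne
    have hne' : p v i ≠ 0 := hne
    obtain ⟨z, hz⟩ := h3 _ (hv (1 / (2 * p v i)))
    have h5 := congrFun hz i
    rw [map_smul, Pi.smul_apply, smul_eq_mul] at h5
    have h6 : (1 / (2 * p v i)) * p v i = 1 / 2 := by field_simp
    rw [h6] at h5
    have h7 : (1 : ℝ) = 2 * (z i : ℝ) := by linarith
    have h8 : (1 : ℤ) = 2 * z i := by exact_mod_cast h7
    omega
  have key : ∀ L : V →ₗ[ℝ] V, (∀ v ∈ subV (perG D.F), L v ∈ subV (perG D.F)) →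
      ∀ v, p (L (ι (p v))) = p (L v) := by
    intro L hL v
    have := hp0 _ (hL _ (h2 v))
    rw [map_sub, map_sub, sub_eq_zero] at this
    exact this.symm
  have kT : ∀ v, p (D.T (ι (p v))) = p (D.T v) := key D.T.toLinearMap hT_V0
  have kS : ∀ v, p (D.T.symm (ι (p v))) = p (D.T.symm v) := key D.T.symm.toLinearMap hTs_V0
  obtain ⟨T, hT, hTs⟩ : ∃ T : (Fin k → ℝ) ≃ₗ[ℝ] (Fin k → ℝ), (∀ x, T x = p (D.T (ι x))) ∧
      ∀ x, T.symm x = p (D.T.symm (ι x)) := by
    refine ⟨LinearEquiv.ofLinearMap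
      (p ∘ₗ D.T.toLinearMap ∘ₗ ι) (p ∘ₗ D.T.symm.toLinearMap ∘ₗ ι)
      (by
        ext1 x
        ext1
        show p (D.T (ι (p (D.T.symm (ι (Pi.single x 1)))))) = Pi.single x 1
        rw [kT, D.T.apply_symm_apply, h1])
      (by
        ext1 x
        ext1
        show p (D.T.symm (ι (p (D.T (ι (Pi.single x 1)))))) = Pi.single x 1
        rw [kS, D.T.symm_apply_apply, h1]), fun x => rfl, fun x => rfl⟩
  have hTp : ∀ v, T (p v) = p (D.T v) := fun v => by rw [hT, kT]
  have hTi : ∀ x ∈ intG k, T x ∈ intG k := by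
    rintro _ ⟨z, rfl⟩
    rw [hT]
    exact h3 _ (D.T_mem (h4 z))
  have hTsi : ∀ x ∈ intG k, T.symm x ∈ intG k := by
    rintro _ ⟨z, rfl⟩
    rw [hTs]
    exact h3 _ (D.T_symm_mem (h4 z))
  have hιc : Continuous ι := (LinearMap.toContinuousLinearMap ι).continuous
  have hFv : ∀ v, D.F (ι (p v)) = D.F v := by
    intro v
    have h5 := subV_le (h2 v) (ι (p v))
    rw [add_sub_cancel] at h5
    exact h5.symm
  have hFequi : ∀ x, D.F (ι (T x + p D.b)) = D.g (D.F (ι x)) := by
    intro x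
    rw [hT, ← map_add, hFv, D.equi]
  have hFper : ∀ v, ∀ a ∈ intG k, D.F (ι (v + a)) = D.F (ι v) := by
    intro v a ha
    obtain ⟨z, rfl⟩ := ha
    rw [map_add]
    exact h4 z (ι v)
  have hP' : ∀ x ∈ perG (fun x => D.F (ι x)), x ∈ intG k := by
    intro x hx
    have h5 : ι x ∈ perG D.F := by
      intro v
      have h6 : D.F (ι (p v + x)) = D.F (ι (p v)) := hx (p v)
      rw [hFv] at h6
      have h7 := hFv (v + ι x)
      rw [map_add, h1] at h7
      rw [← h7, h6]
    obtain ⟨z, hz⟩ := h3 _ h5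
    rw [h1] at hz
    exact ⟨z, hz⟩
  have hno := no_bounded T (p D.b) D.g (fun x => D.F (ι x)) (D.cont.comp hιc) hFper hFequi D.ε
    D.hε D.exp hP'
  obtain ⟨B, hB⟩ := exists_int_matrix T.toLinearMap hTi
  obtain ⟨B', hB'⟩ := exists_int_matrix T.symm.toLinearMap hTsi
  have hBT : ∀ x, T x = (B.map (Int.cast : ℤ → ℝ)).mulVec x := hB
  have hBT' : ∀ x, T.symm x = (B'.map (Int.cast : ℤ → ℝ)).mulVec x := hB'
  have hBB : B * B' = 1 := by
    have e1 : (B * B').map (Int.cast : ℤ → ℝ) = 1 := by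
      have e2 : (B * B').map (Int.castRingHom ℝ) =
          B.map (Int.castRingHom ℝ) * B'.map (Int.castRingHom ℝ) := Matrix.map_mul
      refine e2.trans ?_
      refine Matrix.ext_of_mulVec_single fun j => ?_
      rw [← Matrix.mulVec_mulVec, Matrix.one_mulVec]
      have e3 := hBT' (Pi.single j 1)
      have e4 := hBT (T.symm (Pi.single j 1))
      rw [e3, ← hBT', T.apply_symm_apply, hBT'] at e4
      exact e4.symm
    have e5 : (B * B').map (Int.cast : ℤ → ℝ) = (1 : Matrix (Fin k) (Fin k) ℤ).map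
        (Int.cast : ℤ → ℝ) := by
      rw [e1]
      exact (Matrix.map_one _ Int.cast_zero Int.cast_one).symm
    exact Matrix.map_injective Int.cast_injective e5
  have hBdet : IsUnit B.det := Matrix.isUnit_det_of_right_inverse hBB
  have hBh : HypMat B := hypMat_of B T hBT hno
  -- the fixed point
  obtain ⟨x0, hx0⟩ : ∃ x0, T x0 + p D.b = x0 := by
    have hinj : Function.Injective
        ((LinearMap.id : (Fin k → ℝ) →ₗ[ℝ] (Fin k → ℝ)) - T.toLinearMap) := by
      rw [injective_iff_map_eq_zero]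
      intro v hv
      have hv' : T v = v := (sub_eq_zero.1 hv).symm
      have hv'' : T.symm v = v := by rw [LinearEquiv.symm_apply_eq, hv']
      refine hno v ‖v‖ (fun n => ?_) (fun n => ?_)
      · rw [Function.iterate_fixed hv']
      · rw [Function.iterate_fixed hv'']
    obtain ⟨x0, hx0⟩ := (LinearMap.injective_iff_surjective.1 hinj) (p D.b)
    refine ⟨x0, ?_⟩
    rw [← hx0]
    show T x0 + (x0 - T x0) = x0
    abel
  obtain ⟨S, hS, hSi, hSsi, ⟨H⟩⟩ := exists_hsp B hBdet hBh
  have hQper : ∀ v, ∀ a ∈ intG k, D.F (ι (v + a + x0)) = D.F (ι (v + x0)) := by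
    intro v a ha
    rw [add_right_comm]
    exact hFper _ a ha
  have hQequi : ∀ v, D.F (ι (S v + x0)) = D.g (D.F (ι (v + x0))) := by
    intro v
    have e1 : S v + x0 = T (v + x0) + p D.b := by
      rw [hS, ← hBT, map_add, add_assoc, hx0]
    rw [e1, hFequi]
  have hQP : ∀ v, (∀ x, D.F (ι (x + v + x0)) = D.F (ι (x + x0))) → v ∈ intG k := by
    intro v hv
    apply hP'
    intro x
    have := hv (x - x0)
    show D.F (ι (x + v)) = D.F (ι x)
    rw [sub_add_cancel] at this
    rw [← this]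
    congr 2
    abel
  let D' : FD (Fin k → ℝ) Y :=
    { T := S
      H := H
      Λ := intG k
      R := 1
      coc := intG_coc
      TΛ := hSi
      TΛ' := hSsi
      g := D.g
      F := fun x => D.F (ι (x + x0))
      cont := D.cont.comp (hιc.comp (continuous_id.add continuous_const))
      per := hQper
      equi := hQequi
      ε := D.ε
      hε := D.hε
      exp := D.exp }
  obtain ⟨δ, hδ, hsmall⟩ := D'.small
  refine ⟨k, B, p, -x0, fun x => D.F (ι (x + x0)), hBdet, hBh,
    D.cont.comp (hιc.comp (continuous_id.add continuous_const)), fun x z => ?_, fun x => ?_,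
    fun v => ?_, fun x => ⟨ι x, h1 x⟩, fun v => ?_, fun v => ?_, fun w hw => h3 w (hΛ hw), hQP,
    ⟨S, ⟨H⟩, hS, hSi, hSsi⟩, min δ 1, lt_min hδ one_pos, fun x y hxy hF => ?_⟩
  · exact hQper x _ ⟨z, rfl⟩
  · show D.F (ι _) = _
    rw [← hS, hQequi]
  · show D.F v = D.F (ι (p v + -x0 + x0))
    rw [neg_add_cancel_right, hFv]
  · rw [← hBT, hTp]
  · rw [map_add, ← hTp, ← hBT, map_add, map_neg]
    nth_rewrite 1 [← hx0]
    abel
  · have h5 := hsmall y (x - y) (hxy.trans_le (min_le_left _ _)) (by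
      show D.F (ι (y + (x - y) + x0)) = D.F (ι (y + x0))
      rw [add_sub_cancel]
      exact hF)
    obtain ⟨z, hz⟩ := hQP _ h5.1
    have h6 : x - y = 0 := by
      rw [hz]
      apply intV_small
      rw [← hz]
      exact hxy.trans_le (min_le_right _ _)
    exact sub_eq_zero.1 h6

end Pool.Agent.D0H26.Fac
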