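import Pool.Agent.D0H26.Fac.Mat
import Pool.Agent.W740.TC.Conv

/-!
# The hyperbolic splitting of an integer matrix without eigenvalues of modulus one
-/

set_option autoImplicit false

open Filter Topology Set Metric Submodule

namespace Pool.Agent.D0H26.Fac

open Pool.Agent.H779R2.To (HypMat)
open Pool.Agent.W740.TC

theorem complex_split {W : Type*} [NormedAddCommGroup W] [NormedSpace ℂ W] [FiniteDimensional ℂ W]
    (T T' : Module.End ℂ W) (h1 : ∀ w, T (T' w) = w) (h2 : ∀ w, T' (T w) = w)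
    (heig : ∀ ν : ℂ, T.HasEigenvalue ν → ‖ν‖ ≠ 1) :
    ∃ (s u : W →ₗ[ℂ] W) (C l : ℝ), 0 ≤ C ∧ 0 ≤ l ∧ l < 1 ∧ (∀ w, s w + u w = w) ∧
      (∀ w, s (T w) = T (s w)) ∧ (∀ w, u (T w) = T (u w)) ∧
      (∀ (n : ℕ) w, ‖T^[n] (s w)‖ ≤ C * l ^ n * ‖w‖) ∧
      (∀ (n : ℕ) w, ‖T'^[n] (u w)‖ ≤ C * l ^ n * ‖w‖) := by
  have hc := W_compl T
  obtain ⟨C₁, l₁, hl₁, hl₁', e1⟩ := Tu_exp T
  obtain ⟨C₂, l₂, hC₂, hl₂, hl₂', e2⟩ := Tc_contr T heig
  set s := (Wc T).projection (Wu T) hc.symm with hs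
  set u := (Wu T).projection (Wc T) hc with hu
  have hsm : ∀ w, s w ∈ Wc T := fun w => projection_apply_mem hc.symm w
  have hum : ∀ w, u w ∈ Wu T := fun w => projection_apply_mem hc w
  have hadd : ∀ w, s w + u w = w := fun w => projection_add_projection_eq_self hc.symm w
  have hs0 : ∀ w ∈ Wu T, s w = 0 := fun w hw => (projection_apply_eq_zero_iff hc.symm).2 hw
  have hs1 : ∀ w ∈ Wc T, s w = w := fun w hw => projection_apply_of_mem_left hc.symm hw
  have hcs : ∀ w, s (T w) = T (s w) := by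
    intro w
    nth_rewrite 1 [← hadd w]
    rw [map_add, map_add, hs1 _ (Wc_map T _ (hsm w)), hs0 _ (Wu_map T _ (hum w)), add_zero]
  have hcu : ∀ w, u (T w) = T (u w) := by
    intro w
    have a1 := hadd (T w)
    have a2 : T (s w) + T (u w) = T w := by rw [← map_add, hadd]
    rw [hcs] at a1
    exact add_left_cancel (a1.trans a2.symm)
  have hinv : ∀ v ∈ Wu T, T' v ∈ Wu T := by
    intro v hv
    have h3 : Function.Injective (T.restrict (Wu_map T)) := by
      intro a b hab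
      apply Subtype.ext
      have h4 := congrArg (fun w : Wu T => T' (w : W)) hab
      have h5 : T' (T (a : W)) = T' (T (b : W)) := h4
      rwa [h2, h2] at h5
    obtain ⟨w, hw⟩ := LinearMap.injective_iff_surjective.mp h3 ⟨v, hv⟩
    have h4 : T (w : W) = v := congrArg (fun w : Wu T => (w : W)) hw
    rw [← h4, h2]
    exact w.2
  have hinvn : ∀ (n : ℕ), ∀ v ∈ Wu T, T'^[n] v ∈ Wu T := by
    intro n
    induction n with
    | zero => intro v hv; exact hv
    | succ n ih =>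
      intro v hv
      rw [Function.iterate_succ_apply']
      exact hinv _ (ih v hv)
  have hTu : ∀ (n : ℕ) (v : Wu T), (((Tu T) ^ n) v : W) = T^[n] v := by
    intro n
    induction n with
    | zero => intro v; rfl
    | succ n ih =>
      intro v
      rw [pow_succ', Function.iterate_succ_apply']
      show T (((Tu T) ^ n) v : W) = T (T^[n] v)
      rw [ih]
  have hTc : ∀ (n : ℕ) (v : Wc T), (((Tc T) ^ n) v : W) = T^[n] v := by
    intro n
    induction n with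
    | zero => intro v; rfl
    | succ n ih =>
      intro v
      rw [pow_succ', Function.iterate_succ_apply']
      show T (((Tc T) ^ n) v : W) = T (T^[n] v)
      rw [ih]
  have hK : ∀ L : W →ₗ[ℂ] W, ∃ K : ℝ, 0 ≤ K ∧ ∀ w, ‖L w‖ ≤ K * ‖w‖ := fun L =>
    ⟨‖LinearMap.toContinuousLinearMap L‖, norm_nonneg _,
      fun w => (LinearMap.toContinuousLinearMap L).le_opNorm w⟩
  obtain ⟨K₁, hK₁, k1⟩ := hK s
  obtain ⟨K₂, hK₂, k2⟩ := hK u
  set C := max (|C₁| * K₂) (C₂ * K₁) with hC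
  set l := max l₁ l₂ with hl
  have hC0 : 0 ≤ C := le_max_of_le_right (mul_nonneg hC₂ hK₁)
  have hl0 : 0 ≤ l := le_max_of_le_left hl₁
  refine ⟨s, u, C, l, hC0, hl0, max_lt hl₁' hl₂', hadd, hcs, hcu, fun n w => ?_, fun n w => ?_⟩
  · have a1 := e2 n ⟨s w, hsm w⟩
    have a2 : ‖((Tc T) ^ n) ⟨s w, hsm w⟩‖ = ‖T^[n] (s w)‖ := by
      rw [← hTc n ⟨s w, hsm w⟩]; rfl
    rw [a2] at a1
    refine a1.trans ?_
    have a3 : l₂ ^ n ≤ l ^ n := pow_le_pow_left₀ hl₂ (le_max_right _ _) n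
    have a4 : ‖(⟨s w, hsm w⟩ : Wc T)‖ ≤ K₁ * ‖w‖ := k1 w
    calc C₂ * l₂ ^ n * ‖(⟨s w, hsm w⟩ : Wc T)‖ ≤ C₂ * l ^ n * (K₁ * ‖w‖) :=
          mul_le_mul (mul_le_mul_of_nonneg_left a3 hC₂) a4 (norm_nonneg _)
            (mul_nonneg hC₂ (pow_nonneg hl0 n))
      _ = (C₂ * K₁) * (l ^ n * ‖w‖) := by ring
      _ ≤ C * (l ^ n * ‖w‖) := mul_le_mul_of_nonneg_right (le_max_right _ _)
            (mul_nonneg (pow_nonneg hl0 n) (norm_nonneg _))
      _ = _ := by ring
  · have hm := hinvn n _ (hum w)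
    have a1 := e1 n ⟨T'^[n] (u w), hm⟩
    have a2 : ‖((Tu T) ^ n) ⟨T'^[n] (u w), hm⟩‖ = ‖u w‖ := by
      have : (((Tu T) ^ n) ⟨T'^[n] (u w), hm⟩ : W) = u w := by
        rw [hTu]
        exact (Function.LeftInverse.iterate h1 n) (u w)
      exact congrArg (fun x : W => ‖x‖) this
    rw [a2] at a1
    have a0 : ‖T'^[n] (u w)‖ = ‖(⟨T'^[n] (u w), hm⟩ : Wu T)‖ := rfl
    rw [a0]
    refine a1.trans ?_
    have a3 : l₁ ^ n ≤ l ^ n := pow_le_pow_left₀ hl₁ (le_max_left _ _) n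
    calc C₁ * l₁ ^ n * ‖u w‖ ≤ |C₁| * l₁ ^ n * ‖u w‖ := by
          gcongr
          exact le_abs_self _
      _ ≤ |C₁| * l ^ n * (K₂ * ‖w‖) :=
          mul_le_mul (mul_le_mul_of_nonneg_left a3 (abs_nonneg _)) (k2 w) (norm_nonneg _)
            (mul_nonneg (abs_nonneg _) (pow_nonneg hl0 n))
      _ = (|C₁| * K₂) * (l ^ n * ‖w‖) := by ring
      _ ≤ C * (l ^ n * ‖w‖) := mul_le_mul_of_nonneg_right (le_max_left _ _)
            (mul_nonneg (pow_nonneg hl0 n) (norm_nonneg _))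
      _ = _ := by ring

/-- the real parts -/
noncomputable def reL (m : ℕ) : (Fin m → ℂ) →ₗ[ℝ] (Fin m → ℝ) where
  toFun w := fun i => (w i).re
  map_add' v w := by funext i; simp
  map_smul' r v := by funext i; simp

theorem reL_norm {m : ℕ} (w : Fin m → ℂ) : ‖reL m w‖ ≤ ‖w‖ := by
  rw [pi_norm_le_iff_of_nonneg (norm_nonneg _)]
  intro i
  exact (Complex.abs_re_le_norm _).trans (norm_le_pi_norm w i)

theorem reL_inc {m : ℕ} (v : Fin m → ℝ) : reL m (inc m v) = v := rfl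

theorem reL_cx {m : ℕ} (A : Matrix (Fin m) (Fin m) ℤ) (w : Fin m → ℂ) :
    reL m (cx A w) = (A.map (Int.cast : ℤ → ℝ)).mulVec (reL m w) := by
  funext i
  show ((Matrix.toLin' (A.map (Int.cast : ℤ → ℂ)) w) i).re = ∑ j, ((A i j : ℤ) : ℝ) * (w j).re
  rw [Matrix.toLin'_apply]
  show (∑ j, ((A i j : ℤ) : ℂ) * w j).re = _
  rw [Complex.re_sum]
  refine Finset.sum_congr rfl fun j _ => ?_
  have : ((A i j : ℤ) : ℂ) = (((A i j : ℤ) : ℝ) : ℂ) := by push_cast; rfl
  rw [this, Complex.re_ofReal_mul]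

theorem cx_inc' {m : ℕ} (A : Matrix (Fin m) (Fin m) ℤ) (v : Fin m → ℝ) :
    cx A (inc m v) = inc m ((A.map (Int.cast : ℤ → ℝ)).mulVec v) := cx_inc A v

/-- the action on the real vectors -/
theorem int_of_matrix {m : ℕ} (A : Matrix (Fin m) (Fin m) ℤ) (z : Fin m → ℤ) :
    (A.map (Int.cast : ℤ → ℝ)).mulVec (intV z) = intV (A.mulVec z) := by
  funext i
  show ∑ j, ((A i j : ℤ) : ℝ) * (z j : ℝ) = ((∑ j, A i j * z j : ℤ) : ℝ)
  push_cast
  rfl

/-- **The splitting of a hyperbolic matrix.** -/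
theorem exists_hsp {m : ℕ} (A : Matrix (Fin m) (Fin m) ℤ) (hdet : IsUnit A.det) (hA : HypMat A) :
    ∃ T : (Fin m → ℝ) ≃ₗ[ℝ] (Fin m → ℝ), (∀ x, T x = (A.map (Int.cast : ℤ → ℝ)).mulVec x) ∧
      (∀ x ∈ intG m, T x ∈ intG m) ∧ (∀ x ∈ intG m, T.symm x ∈ intG m) ∧ Nonempty (HSp T) := by
  set A' := A⁻¹ with hA'
  have hAA : A * A' = 1 := Matrix.mul_nonsing_inv A hdet
  have hAA' : A' * A = 1 := Matrix.nonsing_inv_mul A hdet
  have hprod : ∀ B C : Matrix (Fin m) (Fin m) ℤ, B * C = 1 → ∀ x : Fin m → ℝ,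
      (B.map (Int.cast : ℤ → ℝ)).mulVec ((C.map (Int.cast : ℤ → ℝ)).mulVec x) = x := by
    intro B C h x
    rw [Matrix.mulVec_mulVec]
    have e2 : (B * C).map (Int.castRingHom ℝ) =
        B.map (Int.castRingHom ℝ) * C.map (Int.castRingHom ℝ) := Matrix.map_mul
    have e3 : B.map (Int.cast : ℤ → ℝ) * C.map (Int.cast : ℤ → ℝ) = 1 := by
      refine e2.symm.trans ?_
      rw [h]
      exact Matrix.map_one _ (map_zero _) (map_one _)
    rw [e3, Matrix.one_mulVec]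
  have hprodC : ∀ B C : Matrix (Fin m) (Fin m) ℤ, B * C = 1 → ∀ w, cx B (cx C w) = w := by
    intro B C h w
    show Matrix.toLin' (B.map (Int.cast : ℤ → ℂ)) (Matrix.toLin' (C.map (Int.cast : ℤ → ℂ)) w) = w
    rw [← LinearMap.comp_apply, ← Matrix.toLin'_mul]
    have h1 : B.map (Int.cast : ℤ → ℂ) * C.map (Int.cast : ℤ → ℂ) = 1 := by
      have h2 := congrArg (fun B : Matrix (Fin m) (Fin m) ℤ => B.map (Int.castRingHom ℂ)) h
      simp only [Matrix.map_mul] at h2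
      rw [Matrix.map_one _ (map_zero _) (map_one _)] at h2
      exact h2
    rw [h1, Matrix.toLin'_one]
    rfl
  let T : (Fin m → ℝ) ≃ₗ[ℝ] (Fin m → ℝ) :=
    { toFun := fun x => (A.map (Int.cast : ℤ → ℝ)).mulVec x
      map_add' := fun x y => Matrix.mulVec_add _ x y
      map_smul' := fun r x => Matrix.mulVec_smul _ r x
      invFun := fun x => (A'.map (Int.cast : ℤ → ℝ)).mulVec x
      left_inv := hprod A' A hAA'
      right_inv := hprod A A' hAA }
  have hT : ∀ x, T x = (A.map (Int.cast : ℤ → ℝ)).mulVec x := fun _ => rfl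
  have hTs : ∀ x, T.symm x = (A'.map (Int.cast : ℤ → ℝ)).mulVec x := fun _ => rfl
  have heig : ∀ ν : ℂ, (cx A).HasEigenvalue ν → ‖ν‖ ≠ 1 := by
    intro ν hν h1
    rw [Module.End.hasEigenvalue_iff_isRoot_charpoly] at hν
    apply hA ν h1
    have h2 : (cx A).charpoly = (A.map (Int.castRingHom ℂ)).charpoly := Matrix.charpoly_toLin' _
    rwa [h2] at hν
  obtain ⟨s, u, C, l, hC, hl0, hl1, hadd, hcs, hcu, hbs, hbu⟩ :=
    complex_split (cx A) (cx A') (hprodC _ _ hAA) (hprodC _ _ hAA') heig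
  have hr1 : ∀ (n : ℕ) w, T^[n] (reL m w) = reL m ((cx A)^[n] w) := fun n w =>
    ((show Function.Semiconj (reL m) (cx A) T from fun w => reL_cx A w).iterate_right n w).symm
  have hr2 : ∀ (n : ℕ) w, T.symm^[n] (reL m w) = reL m ((cx A')^[n] w) := fun n w =>
    ((show Function.Semiconj (reL m) (cx A') T.symm from fun w => reL_cx A' w).iterate_right n
      w).symm
  refine ⟨T, hT, ?_, ?_, ⟨?_⟩⟩
  · rintro _ ⟨z, rfl⟩
    exact ⟨_, (hT _).trans (int_of_matrix A z)⟩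
  · rintro _ ⟨z, rfl⟩
    exact ⟨_, (hTs _).trans (int_of_matrix A' z)⟩
  · exact
    { s := reL m ∘ₗ (s.restrictScalars ℝ) ∘ₗ inc m
      u := reL m ∘ₗ (u.restrictScalars ℝ) ∘ₗ inc m
      add := fun v => by
        show reL m (s (inc m v)) + reL m (u (inc m v)) = v
        rw [← map_add, hadd, reL_inc]
      cs := fun v => by
        show reL m (s (inc m (T v))) = T (reL m (s (inc m v)))
        rw [hT, ← cx_inc', hcs, reL_cx, hT]
      cu := fun v => by
        show reL m (u (inc m (T v))) = T (reL m (u (inc m v)))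
        rw [hT, ← cx_inc', hcu, reL_cx, hT]
      C := C
      l := l
      hC := hC
      hl0 := hl0
      hl1 := hl1
      bs := fun n v => by
        show ‖T^[n] (reL m (s (inc m v)))‖ ≤ _
        rw [hr1]
        refine (reL_norm _).trans ((hbs n _).trans ?_)
        rw [inc_norm]
      bu := fun n v => by
        show ‖T.symm^[n] (reL m (u (inc m v)))‖ ≤ _
        rw [hr2]
        refine (reL_norm _).trans ((hbu n _).trans ?_)
        rw [inc_norm] }

end Pool.Agent.D0H26.Fac
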