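import Pool.Agent.D0H26.Fac.Top

/-!
# Expansive factors of affine toral endomorphisms: the main theorems
-/

set_option autoImplicit false

open Filter Topology Set Metric

namespace Pool.Agent.D0H26.Fac

open Pool.Agent.H779R2.To (HypMat)
open Pool.Agent.TH289.K (Expansive)

theorem tm_surj {k m : ℕ} {N : Matrix (Fin k) (Fin m) ℤ}
    (h : Function.Surjective (fun v : Fin m → ℝ => (N.map (Int.cast : ℤ → ℝ)).mulVec v)) :
    Function.Surjective (tm N) := by
  intro y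
  obtain ⟨w, rfl⟩ := pr_surj k y
  obtain ⟨v, hv⟩ := h w
  refine ⟨pr m v, ?_⟩
  rw [← pr_mul]
  exact congrArg (pr k) hv

/-- local injectivity descends to the torus -/
theorem locInj_of_sep {k : ℕ} {Y : Type*} [TopologicalSpace Y] {Q : (Fin k → ℝ) → Y}
    {h : C(Fin k → AddCircle (1 : ℝ), Y)} (hQ : ∀ v, h (pr k v) = Q v) {δ : ℝ} (hδ : 0 < δ)
    (hi : ∀ x y, ‖x - y‖ < δ → Q x = Q y → x = y) (x : Fin k → AddCircle (1 : ℝ)) :
    ∃ U ∈ 𝓝 x, InjOn h U := by
  obtain ⟨v, rfl⟩ := pr_surj k x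
  refine ⟨pr k '' closedBall v (δ / 4),
    (pr_open k).image_mem_nhds (closedBall_mem_nhds v (by positivity)), ?_⟩
  rintro _ ⟨a, ha, rfl⟩ _ ⟨b, hb, rfl⟩ hab
  rw [hQ, hQ] at hab
  rw [injOn_ball hi v hδ ha hb hab]

/-- locally injective maps of compact spaces have bounded fibres -/
theorem fib_bdd {X Y : Type*} [TopologicalSpace X] [CompactSpace X] {h : X → Y}
    (hi : ∀ x, ∃ U ∈ 𝓝 x, InjOn h U) : ∃ n : ℕ, ∀ y, (h ⁻¹' {y}).encard ≤ n := by
  choose U hU hinj using hi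
  obtain ⟨t, -, hcov⟩ := isCompact_univ.elim_nhds_subcover U (fun x _ => hU x)
  refine ⟨t.card, fun y => ?_⟩
  have h1 : ∀ x ∈ h ⁻¹' {y}, ∃ i ∈ t, x ∈ U i := fun x _ => by
    obtain ⟨i, hi, hx⟩ := mem_iUnion₂.1 (hcov (mem_univ x))
    exact ⟨i, hi, hx⟩
  classical
  obtain ⟨φ, hφ⟩ : ∃ φ : X → X, ∀ x ∈ h ⁻¹' {y}, φ x ∈ t ∧ x ∈ U (φ x) := by
    refine ⟨fun x => if hx : x ∈ h ⁻¹' {y} then (h1 x hx).choose else x, fun x hx => ?_⟩
    simp only [dif_pos hx]
    exact (h1 x hx).choose_spec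
  have h2 : InjOn φ (h ⁻¹' {y}) := by
    intro a ha b hb hab
    refine hinj (φ a) (hφ a ha).2 (by rw [hab]; exact (hφ b hb).2) ?_
    rw [show h a = y from ha, show h b = y from hb]
  rw [← h2.encard_image, ← Set.encard_coe_eq_coe_finsetCard]
  refine Set.encard_le_encard ?_
  rintro _ ⟨x, hx, rfl⟩
  exact (hφ x hx).1

/-- **Structure of the expansive factors of affine toral endomorphisms.** -/
theorem main_structure {Y : Type*} [TopologicalSpace Y] [CompactSpace Y]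
    [TopologicalSpace.MetrizableSpace Y] (g : Y ≃ₜ Y) (hg : Expansive g) {m : ℕ}
    (A : Matrix (Fin m) (Fin m) ℤ) (hA : A.det ≠ 0) (b : Fin m → AddCircle (1 : ℝ))
    (h : C(Fin m → AddCircle (1 : ℝ), Y)) (hh : ∀ x, h (tm A x + b) = g (h x)) :
    ∃ (k : ℕ) (B : Matrix (Fin k) (Fin k) ℤ) (N : Matrix (Fin k) (Fin m) ℤ)
      (c : Fin k → AddCircle (1 : ℝ)) (h' : C(Fin k → AddCircle (1 : ℝ), Y)),
      IsUnit B.det ∧ HypMat B ∧ Function.Surjective (tm N) ∧ N * A = B * N ∧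
      tm N b + c = tm B c ∧ (∀ x, h x = h' (tm N x + c)) ∧ (∀ x, h' (tm B x) = g (h' x)) ∧
      (∀ x, ∃ U ∈ 𝓝 x, InjOn h' U) ∧ (∃ n : ℕ, ∀ y, (h' ⁻¹' {y}).encard ≤ n) := by
  obtain ⟨k, B, N, c, Q, h1, h2, h3, h4, h5, h6, h7, h8, h9, h10, h11, δ, hδ, h12⟩ :=
    lifted g hg A hA b h hh
  obtain ⟨h', hh'⟩ := descend Q h3 h4
  have hloc := locInj_of_sep hh' hδ h12
  refine ⟨k, B, N, pr k c, h', h1, h2, tm_surj h7, h8, h9, fun x => ?_, fun x => ?_, hloc,
    fib_bdd hloc⟩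
  · obtain ⟨v, rfl⟩ := pr_surj m x
    rw [← pr_mul, ← pr_add, hh', h6]
  · obtain ⟨v, rfl⟩ := pr_surj k x
    rw [← pr_mul, hh', hh', h5]

/-- a locally injective open map from a compact space to a Hausdorff space is a covering -/
theorem cov_of_open_locInj {X Y : Type*} [TopologicalSpace X] [T2Space X] [CompactSpace X]
    [TopologicalSpace Y] [T2Space Y] {h : X → Y} (hc : Continuous h) (ho : IsOpenMap h)
    (hi : ∀ x, ∃ U ∈ 𝓝 x, InjOn h U) : IsCoveringMap h := by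
  rw [← isLocalHomeomorph_iff_isCoveringMap]
  rw [isLocalHomeomorph_iff_isOpenEmbedding_restrict]
  intro x
  obtain ⟨U, hU, hi⟩ := hi x
  refine ⟨interior U, interior_mem_nhds.2 hU, ?_⟩
  refine IsOpenEmbedding.of_continuous_injective_isOpenMap
    (hc.comp continuous_subtype_val) ?_ (ho.domRestrict isOpen_interior)
  exact (hi.mono interior_subset).injective

/-- **Manifold factors**: the factor map is an affine map followed by a covering map, and the
factor is an infra-toral automorphism. -/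
theorem main_factor (E' : Type*) [NormedAddCommGroup E'] [NormedSpace ℝ E']
    [FiniteDimensional ℝ E'] {M' : Type*} [TopologicalSpace M'] [T2Space M'] [CompactSpace M']
    [ChartedSpace E' M'] (g : M' ≃ₜ M') (hg : Expansive g) {m : ℕ}
    (A : Matrix (Fin m) (Fin m) ℤ) (hA : A.det ≠ 0) (b : Fin m → AddCircle (1 : ℝ))
    (h : C(Fin m → AddCircle (1 : ℝ), M')) (hh : ∀ x, h (tm A x + b) = g (h x))
    (hs : Function.Surjective h) :
    (∃ (k : ℕ) (B : Matrix (Fin k) (Fin k) ℤ) (N : Matrix (Fin k) (Fin m) ℤ)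
      (c : Fin k → AddCircle (1 : ℝ)) (h' : C(Fin k → AddCircle (1 : ℝ), M')),
      IsUnit B.det ∧ HypMat B ∧ Function.Surjective (tm N) ∧ N * A = B * N ∧
      tm N b + c = tm B c ∧ (∀ x, h x = h' (tm N x + c)) ∧ (∀ x, h' (tm B x) = g (h' x)) ∧
      IsCoveringMap h' ∧ ∀ y, (h' ⁻¹' {y}).Finite) ∧ InfraToral g := by
  have hsc : SecondCountableTopology M' := by
    have := ChartedSpace.secondCountable_of_sigmaCompact E' M'
    exact this
  have hmet : TopologicalSpace.MetrizableSpace M' :=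
    TopologicalSpace.metrizableSpace_of_t3_secondCountable M'
  obtain ⟨k, B, N, c, Q, h1, h2, h3, h4, h5, h6, h7, h8, h9, h10, ⟨T, ⟨H⟩, hT, hTi, hTsi⟩,
    δ, hδ, h12⟩ := lifted g hg A hA b h hh
  have hQs : Function.Surjective Q := by
    intro y
    obtain ⟨x, rfl⟩ := hs y
    obtain ⟨v, rfl⟩ := pr_surj m x
    exact ⟨_, (h6 v).symm⟩
  have hcov : IsCoveringMap Q := cov_of_sep (E' := E') Q h3 hQs h4 δ hδ h12
  obtain ⟨h', hh'⟩ := descend Q h3 h4
  have hloc := locInj_of_sep hh' hδ h12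
  have hopen : IsOpenMap h' := by
    intro U hU
    have : h' '' U = Q '' (pr k ⁻¹' U) := by
      ext y
      constructor
      · rintro ⟨x, hx, rfl⟩
        obtain ⟨v, rfl⟩ := pr_surj k x
        exact ⟨v, hx, (hh' v).symm⟩
      · rintro ⟨v, hv, rfl⟩
        exact ⟨pr k v, hv, hh' v⟩
    rw [this]
    exact hcov.isOpenMap _ (hU.preimage (pr_cont k))
  obtain ⟨n, hn⟩ := fib_bdd hloc
  constructor
  · refine ⟨k, B, N, pr k c, h', h1, h2, tm_surj h7, h8, h9, fun x => ?_, fun x => ?_,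
      cov_of_open_locInj h'.continuous hopen hloc, fun y => ?_⟩
    · obtain ⟨v, rfl⟩ := pr_surj m x
      rw [← pr_mul, ← pr_add, hh', h6]
    · obtain ⟨v, rfl⟩ := pr_surj k x
      rw [← pr_mul, hh', hh', h5]
    · exact Set.finite_of_encard_le_coe (hn y)
  · let D : CD k M' :=
      { T := T
        H := H
        Ti := hTi
        Tsi := hTsi
        g := g
        Q := Q
        cov := hcov
        per := h4
        equi := fun x => by rw [hT, h5]
        exact := h10 }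
    exact ⟨k, B, Q, h1, h2, hcov, hQs, fun x => (h5 x).symm, h4,
      Pool.Agent.H147R2.RI.fib_fin Q hcov h4, fun x y hxy => D.deck x y hxy⟩

/-- **Characterization of the expansive manifold factors of affine toral endomorphisms.** -/
theorem main_iff (E' : Type*) [NormedAddCommGroup E'] [NormedSpace ℝ E']
    [FiniteDimensional ℝ E'] {M' : Type*} [TopologicalSpace M'] [T2Space M'] [CompactSpace M']
    [ChartedSpace E' M'] (g : M' ≃ₜ M') (hg : Expansive g) :
    List.TFAE [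
      ∃ (m : ℕ) (A : Matrix (Fin m) (Fin m) ℤ) (b : Fin m → AddCircle (1 : ℝ))
        (h : C(Fin m → AddCircle (1 : ℝ), M')),
        A.det ≠ 0 ∧ Function.Surjective h ∧ ∀ x, h (tm A x + b) = g (h x),
      ∃ (m : ℕ) (A : Matrix (Fin m) (Fin m) ℤ) (h : C(Fin m → AddCircle (1 : ℝ), M')),
        IsUnit A.det ∧ HypMat A ∧ Function.Surjective h ∧ ∀ x, h (tm A x) = g (h x),
      ∃ (m : ℕ) (A : Matrix (Fin m) (Fin m) ℤ) (h : C(Fin m → AddCircle (1 : ℝ), M')),
        IsUnit A.det ∧ HypMat A ∧ Function.Surjective h ∧ (∀ x, h (tm A x) = g (h x)) ∧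
        IsCoveringMap h ∧ ∀ y, (h ⁻¹' {y}).Finite,
      InfraToral g] := by
  tfae_have 3 → 2 := by
    rintro ⟨m, A, h, h1, h2, h3, h4, -⟩
    exact ⟨m, A, h, h1, h2, h3, h4⟩
  tfae_have 2 → 1 := by
    rintro ⟨m, A, h, h1, h2, h3, h4⟩
    exact ⟨m, A, 0, h, h1.ne_zero, h3, fun x => by rw [add_zero, h4]⟩
  tfae_have 1 → 4 := by
    rintro ⟨m, A, b, h, h1, h2, h3⟩
    exact (main_factor E' g hg A h1 b h h3 h2).2
  tfae_have 4 → 3 := by
    rintro ⟨m, A, P, h1, h2, h3, h4, h5, h6, h7, h8⟩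
    obtain ⟨h, hh⟩ := descend P h3.continuous h6
    have hloc : ∀ x, ∃ U ∈ 𝓝 x, InjOn h U := by
      intro x
      obtain ⟨v, rfl⟩ := pr_surj m x
      obtain ⟨φ, hφ, hφP⟩ := h3.isLocalHomeomorph v
      refine ⟨pr m '' φ.source, (pr_open m).image_mem_nhds (φ.open_source.mem_nhds hφ), ?_⟩
      rintro _ ⟨a, ha, rfl⟩ _ ⟨b, hb, rfl⟩ hab
      rw [hh, hh, hφP] at hab
      rw [φ.injOn ha hb hab]
    have hopen : IsOpenMap h := by
      intro U hU
      have : h '' U = P '' (pr m ⁻¹' U) := by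
        ext y
        constructor
        · rintro ⟨x, hx, rfl⟩
          obtain ⟨v, rfl⟩ := pr_surj m x
          exact ⟨v, hx, (hh v).symm⟩
        · rintro ⟨v, hv, rfl⟩
          exact ⟨pr m v, hv, hh v⟩
      rw [this]
      exact h3.isOpenMap _ (hU.preimage (pr_cont m))
    obtain ⟨n, hn⟩ := fib_bdd hloc
    refine ⟨m, A, h, h1, h2, fun y => ?_, fun x => ?_,
      cov_of_open_locInj h.continuous hopen hloc, fun y => Set.finite_of_encard_le_coe (hn y)⟩
    · obtain ⟨v, rfl⟩ := h4 y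
      exact ⟨pr m v, hh v⟩
    · obtain ⟨v, rfl⟩ := pr_surj m x
      rw [← pr_mul, hh, hh, h5]
  tfae_finish

end Pool.Agent.D0H26.Fac
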