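import Pool.Agent.D0H26.Fac.Core
import Pool.Agent.H779R2.To.TDef

/-!
# Integer vectors and integer matrices
-/

set_option autoImplicit false

open Filter Topology Set Metric

namespace Pool.Agent.D0H26.Fac

open Pool.Agent.H779R2.To (HypMat)

/-- integer vectors -/
def intV {k : ℕ} (z : Fin k → ℤ) : Fin k → ℝ := fun i => (z i : ℝ)

theorem intV_add {k : ℕ} (z w : Fin k → ℤ) : intV z + intV w = intV (z + w) := by
  funext i
  simp [intV]

theorem intV_neg {k : ℕ} (z : Fin k → ℤ) : -intV z = intV (-z) := by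
  funext i
  simp [intV]

/-- the group of the integer vectors -/
def intG (k : ℕ) : AddSubgroup (Fin k → ℝ) where
  carrier := {x | ∃ z : Fin k → ℤ, x = intV z}
  add_mem' := by
    rintro _ _ ⟨z, rfl⟩ ⟨w, rfl⟩
    exact ⟨z + w, intV_add z w⟩
  zero_mem' := ⟨0, by funext i; simp [intV]⟩
  neg_mem' := by
    rintro _ ⟨z, rfl⟩
    exact ⟨-z, intV_neg z⟩

theorem mem_intG {k : ℕ} (x : Fin k → ℝ) : x ∈ intG k ↔ ∃ z : Fin k → ℤ, x = intV z := Iff.rfl

theorem intV_small {k : ℕ} (z : Fin k → ℤ) (h : ‖intV z‖ < 1) : intV z = 0 := by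
  funext i
  have h1 : ‖intV z i‖ < 1 := (norm_le_pi_norm _ i).trans_lt h
  have h2 : |z i| < 1 := by
    have : ((|z i| : ℤ) : ℝ) < 1 := by
      rw [Int.cast_abs, ← Real.norm_eq_abs]
      exact h1
    exact_mod_cast this
  have h3 : z i = 0 := Int.abs_lt_one_iff.1 h2
  simp [intV, h3]

/-- linear bounds -/
theorem lin_bd {V W : Type*} [NormedAddCommGroup V] [NormedSpace ℝ V] [FiniteDimensional ℝ V]
    [NormedAddCommGroup W] [NormedSpace ℝ W] (L : V →ₗ[ℝ] W) :
    ∃ K : ℝ, 0 ≤ K ∧ ∀ v, ‖L v‖ ≤ K * ‖v‖ :=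
  ⟨‖LinearMap.toContinuousLinearMap L‖, norm_nonneg _,
    fun v => (LinearMap.toContinuousLinearMap L).le_opNorm v⟩

/-- a linear map that takes integer vectors to integer vectors -/
theorem exists_int_matrix {k : ℕ} (L : (Fin k → ℝ) →ₗ[ℝ] (Fin k → ℝ))
    (h : ∀ x ∈ intG k, L x ∈ intG k) :
    ∃ B : Matrix (Fin k) (Fin k) ℤ, ∀ x, L x = (B.map (Int.cast : ℤ → ℝ)).mulVec x := by
  have h1 : ∀ j : Fin k, ∃ z : Fin k → ℤ, L (Pi.single j 1) = intV z := by
    intro j
    apply h
    refine ⟨Pi.single j 1, ?_⟩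
    funext i
    rcases eq_or_ne i j with rfl | hij
    · simp [intV]
    · simp [intV, Pi.single_eq_of_ne hij]
  choose z hz using h1
  refine ⟨Matrix.of fun i j => z j i, fun x => ?_⟩
  have e : L = Matrix.toLin' ((Matrix.of fun i j => z j i).map (Int.cast : ℤ → ℝ)) := by
    refine (Pi.basisFun ℝ (Fin k)).ext fun j => ?_
    rw [Pi.basisFun_apply, hz, Matrix.toLin'_apply, Matrix.mulVec_single_one]
    rfl
  rw [e, Matrix.toLin'_apply]

/-- a matrix without nonzero bounded orbits is hyperbolic -/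
theorem hypMat_of {k : ℕ} (B : Matrix (Fin k) (Fin k) ℤ) (T : (Fin k → ℝ) ≃ₗ[ℝ] (Fin k → ℝ))
    (hT : ∀ x, T x = (B.map (Int.cast : ℤ → ℝ)).mulVec x)
    (H : ∀ (v : Fin k → ℝ) (K : ℝ), (∀ n : ℕ, ‖T^[n] v‖ ≤ K) → (∀ n : ℕ, ‖T.symm^[n] v‖ ≤ K) →
      v = 0) : HypMat B := by
  intro μ hμ hroot
  have hev : Module.End.HasEigenvalue (Matrix.toLin' (B.map (Int.castRingHom ℂ))) μ := by
    rw [Module.End.hasEigenvalue_iff_isRoot_charpoly, Matrix.charpoly_toLin']
    exact hroot
  obtain ⟨w, hw⟩ := hev.exists_hasEigenvector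
  have hw1 : ∀ i, ∑ j, (B i j : ℂ) * w j = μ * w i := by
    intro i
    have := congrFun hw.apply_eq_smul i
    rw [Matrix.toLin'_apply] at this
    exact this
  have hμ0 : μ ≠ 0 := by
    intro h
    rw [h, norm_zero] at hμ
    exact zero_ne_one hμ
  have hTc : ∀ c : ℂ, T (fun i => (c * w i).re) = fun i => (c * μ * w i).re := by
    intro c
    rw [hT]
    funext i
    show ∑ j, ((B i j : ℤ) : ℝ) * (c * w j).re = _
    have e1 : c * μ * w i = ∑ j, ((B i j : ℝ) : ℂ) * (c * w j) := by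
      rw [mul_assoc, ← hw1, Finset.mul_sum]
      refine Finset.sum_congr rfl fun j _ => ?_
      push_cast
      ring
    rw [e1, Complex.re_sum]
    refine Finset.sum_congr rfl fun j _ => ?_
    rw [Complex.re_ofReal_mul]
  have hTn : ∀ (n : ℕ) (c : ℂ), T^[n] (fun i => (c * w i).re) = fun i => (c * μ ^ n * w i).re := by
    intro n
    induction n with
    | zero => intro c; simp
    | succ n ih =>
      intro c
      rw [Function.iterate_succ_apply, hTc, ih]
      funext i
      congr 1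
      ring
  have hSc : ∀ c : ℂ, T.symm (fun i => (c * w i).re) = fun i => (c * μ⁻¹ * w i).re := by
    intro c
    rw [LinearEquiv.symm_apply_eq, hTc]
    funext i
    rw [mul_assoc c, inv_mul_cancel₀ hμ0, mul_one]
  have hSn : ∀ (n : ℕ) (c : ℂ),
      T.symm^[n] (fun i => (c * w i).re) = fun i => (c * μ⁻¹ ^ n * w i).re := by
    intro n
    induction n with
    | zero => intro c; simp
    | succ n ih =>
      intro c
      rw [Function.iterate_succ_apply, hSc, ih]
      funext i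
      congr 1
      ring
  have hz : ∀ c : ℂ, ‖c‖ = 1 → (fun i => (c * w i).re) = (0 : Fin k → ℝ) := by
    intro c hc
    have hbd : ∀ d : ℂ, ‖d‖ = 1 → ‖(fun i => (c * d * w i).re : Fin k → ℝ)‖ ≤ ‖w‖ := by
      intro d hd
      rw [pi_norm_le_iff_of_nonneg (norm_nonneg _)]
      intro i
      refine (Complex.abs_re_le_norm _).trans ?_
      rw [norm_mul, norm_mul, hc, hd, one_mul, one_mul]
      exact norm_le_pi_norm w i
    refine H _ ‖w‖ (fun n => ?_) (fun n => ?_)
    · rw [hTn]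
      exact hbd _ (by rw [norm_pow, hμ, one_pow])
    · rw [hSn]
      exact hbd _ (by rw [norm_pow, norm_inv, hμ, inv_one, one_pow])
  apply hw.2
  funext i
  have h1 := congrFun (hz 1 norm_one) i
  have h2 := congrFun (hz (-Complex.I) (by simp)) i
  simp only [one_mul, Pi.zero_apply] at h1
  simp only [neg_mul, Complex.neg_re, Complex.I_mul_re, neg_neg, Pi.zero_apply] at h2
  exact Complex.ext h1 h2

end Pool.Agent.D0H26.Fac
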