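import Pool.Agent.D0H26.Fac.Gen
import Pool.Agent.D0H26.Fac.Aff
import Pool.Agent.D0H26.Fac.Cov
import Pool.Agent.D0H26.Fac.Def

/-!
# Expansive factors of affine toral endomorphisms
-/

set_option autoImplicit false

open Filter Topology Set Metric

namespace Pool.Agent.D0H26.Fac

open Pool.Agent.H779R2.To (HypMat)
open Pool.Agent.TH289.K (Expansive)

/-- the projection to the torus -/
def pr (m : ℕ) (v : Fin m → ℝ) : Fin m → AddCircle (1 : ℝ) := fun i => (v i : AddCircle (1 : ℝ))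

theorem pr_cont (m : ℕ) : Continuous (pr m) :=
  continuous_pi fun i => (AddCircle.continuous_mk' (p := (1 : ℝ))).comp (continuous_apply i)

theorem pr_surj (m : ℕ) : Function.Surjective (pr m) := by
  intro x
  choose v hv using fun i => QuotientAddGroup.mk_surjective (x i)
  exact ⟨v, funext hv⟩

theorem pr_int {m : ℕ} (v : Fin m → ℝ) (z : Fin m → ℤ) :
    pr m (v + fun i => (z i : ℝ)) = pr m v := by
  funext i
  show ((v i + (z i : ℝ) : ℝ) : AddCircle (1 : ℝ)) = (v i : AddCircle (1 : ℝ))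
  rw [AddCircle.coe_add, add_eq_left]
  exact (AddCircle.coe_eq_zero_iff (1 : ℝ)).2 ⟨z i, by simp⟩

theorem pr_eq {m : ℕ} {v w : Fin m → ℝ} (h : pr m v = pr m w) :
    ∃ z : Fin m → ℤ, w = v + fun i => (z i : ℝ) := by
  have h1 : ∀ i, ∃ z : ℤ, w i = v i + (z : ℝ) := by
    intro i
    have h2 : ((w i - v i : ℝ) : AddCircle (1 : ℝ)) = 0 := by
      rw [AddCircle.coe_sub, sub_eq_zero]
      exact (congrFun h i).symm
    obtain ⟨n, hn⟩ := (AddCircle.coe_eq_zero_iff (1 : ℝ)).1 h2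
    refine ⟨n, ?_⟩
    rw [zsmul_eq_mul, mul_one] at hn
    linarith
  choose z hz using h1
  exact ⟨z, funext hz⟩

theorem pr_add {m : ℕ} (v w : Fin m → ℝ) : pr m (v + w) = pr m v + pr m w := by
  funext i
  rfl

theorem pr_mul {k m : ℕ} (N : Matrix (Fin k) (Fin m) ℤ) (v : Fin m → ℝ) :
    pr k ((N.map (Int.cast : ℤ → ℝ)).mulVec v) = tm N (pr m v) := by
  funext i
  show ((∑ j, (N i j : ℝ) * v j : ℝ) : AddCircle (1 : ℝ)) =
    ∑ j, N i j • ((v j : ℝ) : AddCircle (1 : ℝ))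
  have h4 : ((∑ j, (N i j : ℝ) * v j : ℝ) : AddCircle (1 : ℝ)) =
      ∑ j, (((N i j : ℝ) * v j : ℝ) : AddCircle (1 : ℝ)) :=
    map_sum (QuotientAddGroup.mk' (AddSubgroup.zmultiples (1 : ℝ))) _ _
  rw [h4]
  refine Finset.sum_congr rfl fun j _ => ?_
  rw [← zsmul_eq_mul, AddCircle.coe_zsmul]

theorem pr_open (m : ℕ) : IsOpenMap (pr m) := by
  have h := IsOpenMap.piMap (f := fun _ : Fin m => fun v : ℝ => (v : AddCircle (1 : ℝ)))
    (fun _ => QuotientAddGroup.isOpenMap_coe)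
    (Filter.Eventually.of_forall fun _ => QuotientAddGroup.mk_surjective)
  exact h

/-- periodic maps descend to the torus -/
theorem descend {k : ℕ} {Y : Type*} [TopologicalSpace Y] (Q : (Fin k → ℝ) → Y)
    (hc : Continuous Q)
    (hp : ∀ (x : Fin k → ℝ) (z : Fin k → ℤ), Q (x + fun i => (z i : ℝ)) = Q x) :
    ∃ h : C(Fin k → AddCircle (1 : ℝ), Y), ∀ v, h (pr k v) = Q v := by
  have hq : IsOpenQuotientMap (pr k) := ⟨pr_surj k, pr_cont k, pr_open k⟩
  have hfac : ∀ v, Q (Function.surjInv (pr_surj k) (pr k v)) = Q v := by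
    intro v
    obtain ⟨z, hz⟩ := pr_eq (Function.surjInv_eq (pr_surj k) (pr k v))
    conv_rhs => rw [hz, hp]
  refine ⟨⟨fun x => Q (Function.surjInv (pr_surj k) x), ?_⟩, hfac⟩
  rw [hq.isQuotientMap.continuous_iff]
  have : (fun x => Q (Function.surjInv (pr_surj k) x)) ∘ pr k = Q := funext hfac
  rw [this]
  exact hc

theorem exists_eps {Y : Type*} [MetricSpace Y] [CompactSpace Y] {g : Y ≃ₜ Y} (hg : Expansive g) :
    ∃ ε > 0, ∀ a b, (∀ n : ℕ, dist (g^[n] a) (g^[n] b) ≤ ε) →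
      (∀ n : ℕ, dist (g.symm^[n] a) (g.symm^[n] b) ≤ ε) → a = b := by
  obtain ⟨U, hU, h⟩ := hg
  rw [nhdsSet_diagonal_eq_uniformity] at hU
  obtain ⟨e, he, hsub⟩ := Metric.mem_uniformity_dist.1 hU
  refine ⟨e / 2, half_pos he, fun a b h1 h2 => h a b fun n => ⟨?_, ?_⟩⟩
  · exact hsub ((h1 n).trans_lt (half_lt_self he))
  · exact hsub ((h2 n).trans_lt (half_lt_self he))

/-- a real linear map with integer values at the integer vectors -/
theorem exists_int_matrix' {k m : ℕ} (L : (Fin m → ℝ) →ₗ[ℝ] (Fin k → ℝ))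
    (h : ∀ x ∈ intG m, ∃ z : Fin k → ℤ, L x = fun i => (z i : ℝ)) :
    ∃ N : Matrix (Fin k) (Fin m) ℤ, ∀ x, L x = (N.map (Int.cast : ℤ → ℝ)).mulVec x := by
  have h1 : ∀ j : Fin m, ∃ z : Fin k → ℤ, L (Pi.single j 1) = intV z := by
    intro j
    apply h
    refine ⟨Pi.single j 1, ?_⟩
    funext i
    rcases eq_or_ne i j with rfl | hij
    · simp [intV]
    · simp [intV, Pi.single_eq_of_ne hij]
  choose z hz using h1
  refine ⟨Matrix.of fun i j => z j i, fun x => ?_⟩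
  have e : L = Matrix.toLin' ((Matrix.of fun i j => z j i).map (Int.cast : ℤ → ℝ)) := by
    refine (Pi.basisFun ℝ (Fin m)).ext fun j => ?_
    rw [Pi.basisFun_apply, hz, Matrix.toLin'_apply, Matrix.mulVec_single_one]
    rfl
  rw [e, Matrix.toLin'_apply]

theorem mat_ext {k m : ℕ} {N N' : Matrix (Fin k) (Fin m) ℤ}
    (h : ∀ v : Fin m → ℝ, (N.map (Int.cast : ℤ → ℝ)).mulVec v =
      (N'.map (Int.cast : ℤ → ℝ)).mulVec v) : N = N' := by
  have e1 : N.map (Int.cast : ℤ → ℝ) = N'.map (Int.cast : ℤ → ℝ) :=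
    Matrix.ext_of_mulVec_single fun j => h _
  exact Matrix.map_injective Int.cast_injective e1

theorem mulVec_mul' {a b c : ℕ} (N : Matrix (Fin a) (Fin b) ℤ) (N' : Matrix (Fin b) (Fin c) ℤ)
    (v : Fin c → ℝ) : ((N * N').map (Int.cast : ℤ → ℝ)).mulVec v =
      (N.map (Int.cast : ℤ → ℝ)).mulVec ((N'.map (Int.cast : ℤ → ℝ)).mulVec v) := by
  have e2 : (N * N').map (Int.castRingHom ℝ) =
      N.map (Int.castRingHom ℝ) * N'.map (Int.castRingHom ℝ) := Matrix.map_mul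
  have e3 : (N * N').map (Int.cast : ℤ → ℝ) =
      N.map (Int.cast : ℤ → ℝ) * N'.map (Int.cast : ℤ → ℝ) := e2
  rw [e3, Matrix.mulVec_mulVec]

/-- **Structure of the expansive factors** on the level of the vector spaces. -/
theorem lifted {Y : Type*} [TopologicalSpace Y] [CompactSpace Y]
    [TopologicalSpace.MetrizableSpace Y] (g : Y ≃ₜ Y) (hg : Expansive g) {m : ℕ}
    (A : Matrix (Fin m) (Fin m) ℤ) (hA : A.det ≠ 0) (b : Fin m → AddCircle (1 : ℝ))
    (h : C(Fin m → AddCircle (1 : ℝ), Y)) (hh : ∀ x, h (tm A x + b) = g (h x)) :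
    ∃ (k : ℕ) (B : Matrix (Fin k) (Fin k) ℤ) (N : Matrix (Fin k) (Fin m) ℤ) (c : Fin k → ℝ)
      (Q : (Fin k → ℝ) → Y), IsUnit B.det ∧ HypMat B ∧ Continuous Q ∧
      (∀ (x : Fin k → ℝ) (z : Fin k → ℤ), Q (x + fun i => (z i : ℝ)) = Q x) ∧
      (∀ x, Q ((B.map (Int.cast : ℤ → ℝ)).mulVec x) = g (Q x)) ∧
      (∀ v, h (pr m v) = Q ((N.map (Int.cast : ℤ → ℝ)).mulVec v + c)) ∧
      Function.Surjective (fun v : Fin m → ℝ => (N.map (Int.cast : ℤ → ℝ)).mulVec v) ∧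
      N * A = B * N ∧ tm N b + pr k c = tm B (pr k c) ∧
      (∀ v, (∀ x, Q (x + v) = Q x) → v ∈ intG k) ∧
      (∃ T : (Fin k → ℝ) ≃ₗ[ℝ] (Fin k → ℝ), Nonempty (HSp T) ∧
        (∀ x, T x = (B.map (Int.cast : ℤ → ℝ)).mulVec x) ∧ (∀ x ∈ intG k, T x ∈ intG k) ∧
        ∀ x ∈ intG k, T.symm x ∈ intG k) ∧
      ∃ δ > 0, ∀ x y, ‖x - y‖ < δ → Q x = Q y → x = y := by
  let _ : MetricSpace Y := TopologicalSpace.metrizableSpaceMetric Y
  obtain ⟨ε, hε, hexp⟩ := exists_eps hg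
  obtain ⟨b', hb'⟩ := pr_surj m b
  have hdet : IsUnit (A.map (Int.cast : ℤ → ℝ)).det := by
    have e1 : (A.map (Int.castRingHom ℝ)).det = ((A.det : ℤ) : ℝ) := by
      rw [← RingHom.mapMatrix_apply, ← RingHom.map_det]
      rfl
    have e2 : (A.map (Int.cast : ℤ → ℝ)).det = ((A.det : ℤ) : ℝ) := e1
    rw [e2, isUnit_iff_ne_zero]
    exact_mod_cast hA
  obtain ⟨T, hT⟩ : ∃ T : (Fin m → ℝ) ≃ₗ[ℝ] (Fin m → ℝ),
      ∀ x, T x = (A.map (Int.cast : ℤ → ℝ)).mulVec x :=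
    ⟨Matrix.toLin'OfInv (Matrix.nonsing_inv_mul _ hdet) (Matrix.mul_nonsing_inv _ hdet),
      fun x => rfl⟩
  let D : GD (Fin m → ℝ) Y :=
    { T := T
      b := b'
      Λ := intG m
      R := 1
      coc := intG_coc
      g := g
      F := fun v => h (pr m v)
      cont := h.continuous.comp (pr_cont m)
      per := by
        rintro v _ ⟨z, rfl⟩
        exact congrArg h (pr_int v z)
      equi := fun v => by
        show h (pr m (T v + b')) = g (h (pr m v))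
        rw [pr_add, hb', hT, pr_mul, hh]
      ε := ε
      hε := hε
      exp := hexp }
  obtain ⟨k, B, p, c, Q, h1, h2, h3, h4, h5, h6, h7, h8, h9, h10, h11, h12, h13⟩ := D.reduce
  obtain ⟨N, hN⟩ := exists_int_matrix' p h10
  have h8' : ∀ v, p (T v) = (B.map (Int.cast : ℤ → ℝ)).mulVec (p v) := h8
  have h9' : ∀ v, p (T v + b') + c = (B.map (Int.cast : ℤ → ℝ)).mulVec (p v + c) := h9
  have hNf : (fun v : Fin m → ℝ => (N.map (Int.cast : ℤ → ℝ)).mulVec v) = p :=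
    funext fun v => (hN v).symm
  refine ⟨k, B, N, c, Q, h1, h2, h3, h4, h5, fun v => ?_, ?_, ?_, ?_, h11, h12, h13⟩
  · rw [← hN]
    exact h6 v
  · rw [hNf]
    exact h7
  · apply mat_ext
    intro v
    rw [mulVec_mul', mulVec_mul', ← hT, ← hN, ← hN, h8']
  · have := h9' 0
    rw [map_zero, zero_add, map_zero, zero_add, hN] at this
    have h14 := congrArg (pr k) this
    rw [pr_add, pr_mul, pr_mul, hb'] at h14
    exact h14

end Pool.Agent.D0H26.Fac
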